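import Pool.Agent.Work.MP_19b229_an.Green

set_option autoImplicit false

open MeasureTheory Filter Topology Set Metric
open scoped ENNReal

namespace Pool.Agent.Work.MP_19b229_an

/-- a one-dimensional smooth bump -/
noncomputable def bump : ContDiffBump (1 / 2 : ℝ) := ⟨2, 5 / 2, by norm_num, by norm_num⟩

/-- the bump as a function -/
noncomputable def bb (t : ℝ) : ℝ := bump t

lemma bb_contDiff : ContDiff ℝ 2 bb := bump.contDiff

lemma bb_nonneg (t : ℝ) : 0 ≤ bb t := bump.nonneg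

lemma bb_le_one (t : ℝ) : bb t ≤ 1 := bump.le_one

lemma bb_one {t : ℝ} (h1 : -(3 / 2) ≤ t) (h2 : t ≤ 5 / 2) : bb t = 1 := by
  apply bump.one_of_mem_closedBall
  rw [mem_closedBall, Real.dist_eq, abs_le]
  change -(2:ℝ) ≤ t - 1 / 2 ∧ t - 1 / 2 ≤ 2
  constructor <;> linarith

lemma bb_tsupport : tsupport bb ⊆ Icc (-2) 3 := by
  have h : tsupport bb = closedBall (1 / 2 : ℝ) (5 / 2) := bump.tsupport_eq
  rw [h, Real.closedBall_eq_Icc]
  apply Icc_subset_Icc <;> norm_num

lemma bb_zero {t : ℝ} (h : t ∉ Icc (-2:ℝ) 3) : bb t = 0 :=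
  image_eq_zero_of_notMem_tsupport (fun h' => h (bb_tsupport h'))

lemma bb'_zero {t : ℝ} (h : t ∉ Icc (-2:ℝ) 3) : deriv bb t = 0 :=
  image_eq_zero_of_notMem_tsupport (fun h' => h (bb_tsupport (tsupport_deriv_subset h')))

lemma bb''_zero {t : ℝ} (h : t ∉ Icc (-2:ℝ) 3) : deriv (deriv bb) t = 0 :=
  image_eq_zero_of_notMem_tsupport (fun h' => h (bb_tsupport
    (tsupport_deriv_subset (tsupport_deriv_subset h'))))

lemma bb'_contDiff : ContDiff ℝ 1 (deriv bb) := by
  have h := bb_contDiff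
  rw [show (2 : WithTop ℕ∞) = 1 + 1 from by norm_num] at h
  exact (contDiff_succ_iff_deriv.1 h).2.2

lemma bb_hasDeriv (t : ℝ) : HasDerivAt bb (deriv bb t) t :=
  (bb_contDiff.differentiable (by norm_num) t).hasDerivAt

lemma bb'_hasDeriv (t : ℝ) : HasDerivAt (deriv bb) (deriv (deriv bb) t) t :=
  (bb'_contDiff.differentiable (by norm_num) t).hasDerivAt

lemma bb_cont : Continuous bb := bb_contDiff.continuous

lemma bb'_cont : Continuous (deriv bb) := bb'_contDiff.continuous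

lemma bb''_cont : Continuous (deriv (deriv bb)) :=
  bb'_contDiff.continuous_deriv le_rfl

lemma exists_bound : ∃ C : ℝ, 1 ≤ C ∧ ∀ t, |deriv bb t| ≤ C ∧ |deriv (deriv bb) t| ≤ C := by
  obtain ⟨C1, h1⟩ := (isCompact_Icc (a := (-2:ℝ)) (b := 3)).exists_bound_of_continuousOn
    bb'_cont.continuousOn
  obtain ⟨C2, h2⟩ := (isCompact_Icc (a := (-2:ℝ)) (b := 3)).exists_bound_of_continuousOn
    bb''_cont.continuousOn
  refine ⟨max 1 (max C1 C2), le_max_left _ _, fun t => ?_⟩
  by_cases ht : t ∈ Icc (-2:ℝ) 3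
  · exact ⟨(h1 t ht).trans ((le_max_left _ _).trans (le_max_right _ _)),
      (h2 t ht).trans ((le_max_right _ _).trans (le_max_right _ _))⟩
  · rw [bb'_zero ht, bb''_zero ht, abs_zero]
    have : (0:ℝ) ≤ max 1 (max C1 C2) := le_trans zero_le_one (le_max_left _ _)
    exact ⟨this, this⟩

/-- bound for the derivatives -/
noncomputable def CB : ℝ := exists_bound.choose

lemma CB_one : 1 ≤ CB := exists_bound.choose_spec.1

lemma CB_d1 (t : ℝ) : |deriv bb t| ≤ CB := (exists_bound.choose_spec.2 t).1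

lemma CB_d2 (t : ℝ) : |deriv (deriv bb) t| ≤ CB := (exists_bound.choose_spec.2 t).2

variable {N : ℕ}

/-- the rescaled coordinate -/
noncomputable def tc (c : ℕ × (Fin N → ℤ)) (j : Fin N) (x : EuclideanSpace ℝ (Fin N)) : ℝ :=
  2 ^ c.1 * x j - c.2 j

/-- the region attached to a cube -/
def Rg (c : ℕ × (Fin N → ℤ)) : Set (EuclideanSpace ℝ (Fin N)) :=
  {x | ∀ j, tc c j x ∈ Icc (-2:ℝ) 3}

lemma tc_cont (c : ℕ × (Fin N → ℤ)) (j : Fin N) : Continuous (tc c j) := by
  unfold tc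
  fun_prop

lemma tc_line_ne (c : ℕ × (Fin N → ℤ)) {i j : Fin N} (h : j ≠ i)
    (x : EuclideanSpace ℝ (Fin N)) (t : ℝ) : tc c j (x + t • ee i) = tc c j x := by
  simp [tc, ee, h]

lemma tc_line_eq (c : ℕ × (Fin N → ℤ)) (i : Fin N)
    (x : EuclideanSpace ℝ (Fin N)) (t : ℝ) : tc c i (x + t • ee i) = 2 ^ c.1 * t + tc c i x := by
  simp [tc, ee]
  ring

lemma tc_hasDeriv (c : ℕ × (Fin N → ℤ)) (i : Fin N) (x : EuclideanSpace ℝ (Fin N)) :
    HasDerivAt (fun t : ℝ => tc c i (x + t • ee i)) (2 ^ c.1) 0 := by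
  simp_rw [tc_line_eq]
  have := ((hasDerivAt_id (0:ℝ)).const_mul ((2:ℝ) ^ c.1)).add_const (tc c i x)
  simpa using this

/-- the product of the other factors -/
noncomputable def rest (c : ℕ × (Fin N → ℤ)) (i : Fin N) (x : EuclideanSpace ℝ (Fin N)) : ℝ :=
  ∏ j ∈ Finset.univ.erase i, bb (tc c j x)

lemma rest_line (c : ℕ × (Fin N → ℤ)) (i : Fin N)
    (x : EuclideanSpace ℝ (Fin N)) (t : ℝ) : rest c i (x + t • ee i) = rest c i x := by
  unfold rest
  apply Finset.prod_congr rfl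
  intro j hj
  rw [tc_line_ne c (Finset.ne_of_mem_erase hj)]

lemma rest_cont (c : ℕ × (Fin N → ℤ)) (i : Fin N) : Continuous (rest c i) := by
  unfold rest
  exact continuous_finset_prod _ (fun j _ => bb_cont.comp (tc_cont c j))

lemma rest_nonneg (c : ℕ × (Fin N → ℤ)) (i : Fin N) (x : EuclideanSpace ℝ (Fin N)) :
    0 ≤ rest c i x := Finset.prod_nonneg (fun _ _ => bb_nonneg _)

lemma rest_le_one (c : ℕ × (Fin N → ℤ)) (i : Fin N) (x : EuclideanSpace ℝ (Fin N)) :
    rest c i x ≤ 1 := Finset.prod_le_one (fun _ _ => bb_nonneg _) (fun _ _ => bb_le_one _)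

/-- the bump function of a cube -/
noncomputable def psi (c : ℕ × (Fin N → ℤ)) : TF N where
  f x := ∏ j, bb (tc c j x)
  d1 i x := 2 ^ c.1 * deriv bb (tc c i x) * rest c i x
  d2 i x := 4 ^ c.1 * deriv (deriv bb) (tc c i x) * rest c i x
  h1 i x := by
    unfold HasLineDerivAt
    have e : ∀ y, ∏ j, bb (tc c j y) = bb (tc c i y) * rest c i y := fun y =>
      (Finset.mul_prod_erase Finset.univ (fun j => bb (tc c j y)) (Finset.mem_univ i)).symm
    simp_rw [e, rest_line]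
    have h0 : HasDerivAt bb (deriv bb (tc c i x)) (tc c i (x + (0:ℝ) • ee i)) := by
      rw [zero_smul, add_zero]; exact bb_hasDeriv _
    have h := (h0.comp 0 (tc_hasDeriv c i x)).mul_const (rest c i x)
    refine h.congr_deriv ?_
    ring
  h2 i x := by
    unfold HasLineDerivAt
    simp_rw [rest_line]
    have h0 : HasDerivAt (deriv bb) (deriv (deriv bb) (tc c i x)) (tc c i (x + (0:ℝ) • ee i)) := by
      rw [zero_smul, add_zero]; exact bb'_hasDeriv _
    have h := ((h0.comp 0 (tc_hasDeriv c i x)).const_mul ((2:ℝ) ^ c.1)).mul_const (rest c i x)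
    refine h.congr_deriv ?_
    have : (4:ℝ) ^ c.1 = 2 ^ c.1 * 2 ^ c.1 := by rw [← mul_pow]; norm_num
    rw [this]
    ring
  cf := continuous_finset_prod _ (fun j _ => bb_cont.comp (tc_cont c j))
  c1 i := (continuous_const.mul (bb'_cont.comp (tc_cont c i))).mul (rest_cont c i)
  c2 i := (continuous_const.mul (bb''_cont.comp (tc_cont c i))).mul (rest_cont c i)

lemma psi_f (c : ℕ × (Fin N → ℤ)) (x : EuclideanSpace ℝ (Fin N)) :
    (psi c).f x = ∏ j, bb (tc c j x) := rfl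

lemma psi_nonneg (c : ℕ × (Fin N → ℤ)) (x : EuclideanSpace ℝ (Fin N)) : 0 ≤ (psi c).f x := by
  rw [psi_f]
  exact Finset.prod_nonneg (fun _ _ => bb_nonneg _)

lemma psi_le_one (c : ℕ × (Fin N → ℤ)) (x : EuclideanSpace ℝ (Fin N)) : (psi c).f x ≤ 1 := by
  rw [psi_f]
  exact Finset.prod_le_one (fun _ _ => bb_nonneg _) (fun _ _ => bb_le_one _)

lemma psi_van (c : ℕ × (Fin N → ℤ)) : (psi c).Van (Rg c) := by
  have key : ∀ x ∉ Rg c, ∃ j, tc c j x ∉ Icc (-2:ℝ) 3 := by
    intro x hx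
    by_contra hcon
    push Not at hcon
    exact hx hcon
  constructor
  · intro x hx
    obtain ⟨j, hj⟩ := key x hx
    exact Finset.prod_eq_zero (Finset.mem_univ j) (bb_zero hj)
  · intro i x hx
    obtain ⟨j, hj⟩ := key x hx
    change 2 ^ c.1 * deriv bb (tc c i x) * rest c i x = 0
    by_cases hij : j = i
    · rw [← hij, bb'_zero hj]; simp
    · have : rest c i x = 0 :=
        Finset.prod_eq_zero (Finset.mem_erase.2 ⟨hij, Finset.mem_univ j⟩) (bb_zero hj)
      rw [this]; simp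
  · intro i x hx
    obtain ⟨j, hj⟩ := key x hx
    change 4 ^ c.1 * deriv (deriv bb) (tc c i x) * rest c i x = 0
    by_cases hij : j = i
    · rw [← hij, bb''_zero hj]; simp
    · have : rest c i x = 0 :=
        Finset.prod_eq_zero (Finset.mem_erase.2 ⟨hij, Finset.mem_univ j⟩) (bb_zero hj)
      rw [this]; simp

lemma psi_d1_le (c : ℕ × (Fin N → ℤ)) (i : Fin N) (x : EuclideanSpace ℝ (Fin N)) :
    |(psi c).d1 i x| ≤ (Rg c).indicator (fun _ => CB * 2 ^ c.1) x := by
  by_cases hx : x ∈ Rg c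
  · simp only [indicator, hx, if_true]
    change |2 ^ c.1 * deriv bb (tc c i x) * rest c i x| ≤ _
    rw [abs_mul, abs_mul, abs_of_nonneg (rest_nonneg c i x), abs_of_pos (by positivity)]
    have h1 := CB_d1 (tc c i x)
    have h2 := rest_le_one c i x
    have h3 := rest_nonneg c i x
    have h4 : (0:ℝ) < 2 ^ c.1 := by positivity
    have h5 := CB_one
    calc 2 ^ c.1 * |deriv bb (tc c i x)| * rest c i x ≤ 2 ^ c.1 * CB * 1 := by gcongr
      _ = CB * 2 ^ c.1 := by ring
  · rw [(psi_van c).d10 i x hx]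
    simp only [indicator, hx, if_false, abs_zero, le_refl]

lemma psi_d2_le (c : ℕ × (Fin N → ℤ)) (i : Fin N) (x : EuclideanSpace ℝ (Fin N)) :
    |(psi c).d2 i x| ≤ (Rg c).indicator (fun _ => CB * 4 ^ c.1) x := by
  by_cases hx : x ∈ Rg c
  · simp only [indicator, hx, if_true]
    change |4 ^ c.1 * deriv (deriv bb) (tc c i x) * rest c i x| ≤ _
    rw [abs_mul, abs_mul, abs_of_nonneg (rest_nonneg c i x), abs_of_pos (by positivity)]
    have h1 := CB_d2 (tc c i x)
    have h2 := rest_le_one c i x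
    have h3 := rest_nonneg c i x
    have h4 : (0:ℝ) < 4 ^ c.1 := by positivity
    have h5 := CB_one
    calc 4 ^ c.1 * |deriv (deriv bb) (tc c i x)| * rest c i x ≤ 4 ^ c.1 * CB * 1 := by gcongr
      _ = CB * 4 ^ c.1 := by ring
  · rw [(psi_van c).d20 i x hx]
    simp only [indicator, hx, if_false, abs_zero, le_refl]

end Pool.Agent.Work.MP_19b229_an
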