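import Pool.Agent.Work.MP_19b229_an.Est

set_option autoImplicit false

open MeasureTheory Filter Topology Set Metric
open scoped ENNReal NNReal

namespace Pool.Agent.Work.MP_19b229_an

variable {N : ℕ}

/-- the open set on which the bump is one -/
def OO (c : ℕ × (Fin N → ℤ)) : Set (EuclideanSpace ℝ (Fin N)) :=
  {x | ∀ j, tc c j x ∈ Ioo (-(3/2):ℝ) (5/2)}

lemma OO_open (c : ℕ × (Fin N → ℤ)) : IsOpen (OO c) := by
  have : OO c = ⋂ j, (tc c j) ⁻¹' Ioo (-(3/2):ℝ) (5/2) := by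
    ext x; simp [OO]
  rw [this]
  exact isOpen_iInter_of_finite (fun j => isOpen_Ioo.preimage (tc_cont c j))

lemma psi_one {c : ℕ × (Fin N → ℤ)} {x : EuclideanSpace ℝ (Fin N)} (hx : x ∈ OO c) :
    (psi c).f x = 1 := by
  rw [psi_f]
  apply Finset.prod_eq_one
  intro j _
  exact bb_one (hx j).1.le (hx j).2.le

lemma rem_zero {L : List (ℕ × (Fin N → ℤ))} {c : ℕ × (Fin N → ℤ)} (hc : c ∈ L)
    {x : EuclideanSpace ℝ (Fin N)} (hx : (psi c).f x = 1) : (rem L).f x = 0 := by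
  induction L with
  | nil => simp at hc
  | cons d L ih =>
    have e : (rem (d :: L)).f x = (1 - (psi d).f x) * (rem L).f x := rfl
    rw [e]
    rcases List.mem_cons.1 hc with h | h
    · rw [← h, hx]; ring
    · rw [ih h]; ring

lemma rem_one {L : List (ℕ × (Fin N → ℤ))} {x : EuclideanSpace ℝ (Fin N)}
    (hx : ∀ c ∈ L, (psi c).f x = 0) : (rem L).f x = 1 := by
  induction L with
  | nil => rfl
  | cons d L ih =>
    have e : (rem (d :: L)).f x = (1 - (psi d).f x) * (rem L).f x := rfl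
    rw [e, hx d List.mem_cons_self, ih (fun c hc => hx c (List.mem_cons_of_mem _ hc))]
    ring

/-- a sorted list from a finite set of cubes -/
lemma exists_sorted (F : Finset (ℕ × (Fin N → ℤ))) : ∃ L : List (ℕ × (Fin N → ℤ)), L.Nodup ∧
    L.Pairwise (fun c d => d.1 ≤ c.1) ∧ (∀ c, c ∈ L ↔ c ∈ F) ∧
    ∀ g : ℕ × (Fin N → ℤ) → ℝ, (L.map g).sum = ∑ c ∈ F, g c := by
  classical
  set r : (ℕ × (Fin N → ℤ)) → (ℕ × (Fin N → ℤ)) → Prop := fun c d => d.1 ≤ c.1 with hr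
  have : Std.Total r := ⟨fun a b => le_total _ _⟩
  have : IsTrans _ r := ⟨fun a b c h1 h2 => le_trans h2 h1⟩
  have hperm := List.perm_insertionSort r F.toList
  refine ⟨F.toList.insertionSort r, ?_, List.pairwise_insertionSort r _, ?_, ?_⟩
  · exact hperm.nodup_iff.2 F.nodup_toList
  · intro c
    rw [List.mem_insertionSort, Finset.mem_toList]
  · intro g
    rw [(hperm.map g).sum_eq, Finset.sum_map_toList]

/-- one cube for each small set -/
lemma exists_cube {t : Set (EuclideanSpace ℝ (Fin N))} {x : EuclideanSpace ℝ (Fin N)}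
    {d : ℝ} (hd0 : 0 < d) (hd1 : d ≤ 1) (ht : ∀ y ∈ t, ‖y - x‖ ≤ d) :
    ∃ c : ℕ × (Fin N → ℤ), t ⊆ OO c ∧ x ∈ Rg c ∧ (1 / 2 : ℝ) ^ c.1 ≤ 2 * d := by
  obtain ⟨m, hm1, hm2⟩ := exists_nat_pow_near_of_lt_one hd0 hd1 (by norm_num : (0:ℝ) < 1 / 2)
    (by norm_num)
  have h2m : (2:ℝ) ^ m * (1 / 2) ^ m = 1 := by rw [← mul_pow]; norm_num
  refine ⟨(m, fun j => ⌊(2:ℝ) ^ m * x j⌋), ?_, ?_, ?_⟩
  · intro y hy j
    have h1 : |(y - x) j| ≤ d := by
      have := PiLp.norm_apply_le (y - x) j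
      rw [Real.norm_eq_abs] at this
      exact this.trans (ht y hy)
    have h2 : |(2:ℝ) ^ m * (y j - x j)| ≤ 1 := by
      rw [abs_mul, abs_of_pos (by positivity)]
      have h3 : |y j - x j| ≤ (1 / 2) ^ m := by
        have e : (y - x) j = y j - x j := rfl
        rw [← e]
        exact h1.trans hm2
      calc (2:ℝ) ^ m * |y j - x j| ≤ 2 ^ m * (1 / 2) ^ m := by gcongr
        _ = 1 := h2m
    have h4 := Int.floor_le ((2:ℝ) ^ m * x j)
    have h5 := Int.lt_floor_add_one ((2:ℝ) ^ m * x j)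
    have h6 := abs_le.1 h2
    unfold tc
    simp only
    rw [mul_sub] at h6
    constructor <;> linarith [h6.1, h6.2]
  · intro j
    have h4 := Int.floor_le ((2:ℝ) ^ m * x j)
    have h5 := Int.lt_floor_add_one ((2:ℝ) ^ m * x j)
    unfold tc
    simp only
    constructor <;> linarith
  · simp only
    rw [pow_succ] at hm1
    linarith

/-- covering of a compact null set by finitely many cubes -/
lemma exists_cover {s : ℝ} (hs : 0 < s) {E : Set (EuclideanSpace ℝ (Fin N))} (hE : IsCompact E)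
    (h0 : Measure.hausdorffMeasure s E = 0) {r δ : ℝ} (hr : 0 < r) (hr1 : r ≤ 1) (hδ : 0 < δ) :
    ∃ F : Finset (ℕ × (Fin N → ℤ)), E ⊆ ⋃ c ∈ F, OO c ∧
      (∀ c ∈ F, ∃ x ∈ E, x ∈ Rg c) ∧ (∀ c ∈ F, (1 / 2 : ℝ) ^ c.1 ≤ 2 * r) ∧
      ∑ c ∈ F, ((1 / 2 : ℝ) ^ c.1) ^ s ≤ 2 ^ s * (2 * δ) := by
  classical
  -- the covering given by the Hausdorff measure
  have h1 : ∃ t : ℕ → Set (EuclideanSpace ℝ (Fin N)), E ⊆ ⋃ n, t n ∧
      (∀ n, ediam (t n) ≤ ENNReal.ofReal r) ∧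
      ∑' n, ⨆ _ : (t n).Nonempty, ediam (t n) ^ s < ENNReal.ofReal δ := by
    rw [Measure.hausdorffMeasure_apply] at h0
    have h2 : (⨅ (t : ℕ → Set (EuclideanSpace ℝ (Fin N))) (_ : E ⊆ ⋃ n, t n)
        (_ : ∀ n, ediam (t n) ≤ ENNReal.ofReal r),
        ∑' n, ⨆ _ : (t n).Nonempty, ediam (t n) ^ s) < ENNReal.ofReal δ := by
      refine lt_of_le_of_lt ?_ (ENNReal.ofReal_pos.2 hδ)
      rw [← h0]
      exact le_iSup₂ (f := fun (r : ℝ≥0∞) (_ : 0 < r) =>
        ⨅ (t : ℕ → Set (EuclideanSpace ℝ (Fin N))) (_ : E ⊆ ⋃ n, t n) (_ : ∀ n, ediam (t n) ≤ r),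
          ∑' n, ⨆ _ : (t n).Nonempty, ediam (t n) ^ s) (ENNReal.ofReal r) (ENNReal.ofReal_pos.2 hr)
    rw [iInf_lt_iff] at h2
    obtain ⟨t, ht⟩ := h2
    rw [iInf_lt_iff] at ht
    obtain ⟨h3, ht⟩ := ht
    rw [iInf_lt_iff] at ht
    obtain ⟨h4, ht⟩ := ht
    exact ⟨t, h3, h4, ht⟩
  obtain ⟨t, htE, htr, htδ⟩ := h1
  set J0 : Set ℕ := {n | (t n ∩ E).Nonempty} with hJ0
  set D : ℕ → ℝ := fun n => (ediam (t n)).toReal with hD
  have hfin : ∀ n, ediam (t n) ≠ ∞ := fun n => ((htr n).trans_lt ENNReal.ofReal_lt_top).ne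
  have hDr : ∀ n, D n ≤ r := fun n => by
    have := ENNReal.toReal_mono ENNReal.ofReal_ne_top (htr n)
    rwa [ENNReal.toReal_ofReal hr.le] at this
  set η : ℕ → ℝ := fun n => min r ((δ / 2 ^ (n + 1)) ^ (1 / s)) with hη
  have hη0 : ∀ n, 0 < η n := fun n => lt_min hr (by positivity)
  have hηs : ∀ n, η n ^ s ≤ δ / 2 ^ (n + 1) := fun n => by
    calc η n ^ s ≤ ((δ / 2 ^ (n + 1)) ^ (1 / s)) ^ s := by
          apply Real.rpow_le_rpow (hη0 n).le (min_le_right _ _) hs.le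
      _ = δ / 2 ^ (n + 1) := by
          rw [← Real.rpow_mul (by positivity), one_div, inv_mul_cancel₀ hs.ne', Real.rpow_one]
  set d : ℕ → ℝ := fun n => max (D n) (η n) with hd
  have hd0 : ∀ n, 0 < d n := fun n => lt_of_lt_of_le (hη0 n) (le_max_right _ _)
  have hdr : ∀ n, d n ≤ r := fun n => max_le (hDr n) (min_le_left _ _)
  have hcube : ∀ n, ∃ c : ℕ × (Fin N → ℤ), n ∈ J0 → (t n ⊆ OO c ∧ (∃ x ∈ E, x ∈ Rg c) ∧
      (1 / 2 : ℝ) ^ c.1 ≤ 2 * d n) := by
    intro n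
    by_cases hn : n ∈ J0
    · obtain ⟨x, hxt, hxE⟩ := hn
      obtain ⟨c, h1, h2, h3⟩ := exists_cube (t := t n) (x := x) (hd0 n) ((hdr n).trans hr1) (by
        intro y hy
        rw [← dist_eq_norm]
        refine le_trans ?_ (le_max_left _ _)
        rw [dist_edist]
        exact ENNReal.toReal_mono (hfin n) (edist_le_ediam_of_mem hy hxt))
      exact ⟨c, fun _ => ⟨h1, ⟨x, hxE, h2⟩, h3⟩⟩
    · exact ⟨(0, fun _ => 0), fun h => absurd h hn⟩
  choose c hc using hcube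
  set U : ℕ → Set (EuclideanSpace ℝ (Fin N)) := fun n => if n ∈ J0 then OO (c n) else ∅ with hU
  have hUo : ∀ n, IsOpen (U n) := by
    intro n
    by_cases hn : n ∈ J0
    · simp only [hU, hn, if_true]; exact OO_open _
    · simp only [hU, hn, if_false]; exact isOpen_empty
  have hUE : E ⊆ ⋃ n, U n := by
    intro x hx
    obtain ⟨n, hn⟩ := mem_iUnion.1 (htE hx)
    have hnJ : n ∈ J0 := ⟨x, hn, hx⟩
    refine mem_iUnion.2 ⟨n, ?_⟩
    simp only [hU, hnJ, if_true]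
    exact (hc n hnJ).1 hn
  obtain ⟨J, hJ⟩ := hE.elim_finite_subcover U hUo hUE
  set J' := J.filter (fun n => n ∈ J0) with hJ'
  refine ⟨J'.image c, ?_, ?_, ?_, ?_⟩
  · intro x hx
    obtain ⟨n, hn⟩ := mem_iUnion.1 (hJ hx)
    obtain ⟨hnJ, hxn⟩ := mem_iUnion.1 hn
    by_cases hn0 : n ∈ J0
    · simp only [hU, hn0, if_true] at hxn
      refine mem_iUnion₂.2 ⟨c n, ?_, hxn⟩
      exact Finset.mem_image_of_mem c (Finset.mem_filter.2 ⟨hnJ, hn0⟩)
    · simp only [hU, hn0, if_false] at hxn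
      exact absurd hxn (notMem_empty x)
  · intro e he
    obtain ⟨n, hn, rfl⟩ := Finset.mem_image.1 he
    exact (hc n (Finset.mem_filter.1 hn).2).2.1
  · intro e he
    obtain ⟨n, hn, rfl⟩ := Finset.mem_image.1 he
    exact (hc n (Finset.mem_filter.1 hn).2).2.2.trans (by linarith [hdr n])
  · have s1 : ∑ e ∈ J'.image c, ((1 / 2 : ℝ) ^ e.1) ^ s ≤ ∑ n ∈ J', ((1 / 2 : ℝ) ^ (c n).1) ^ s := by
      rw [← Finset.sum_fiberwise_of_maps_to (s := J') (t := J'.image c) (g := c)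
        (fun n hn => Finset.mem_image_of_mem c hn)]
      apply Finset.sum_le_sum
      intro e he
      obtain ⟨n, hn, rfl⟩ := Finset.mem_image.1 he
      exact Finset.single_le_sum (f := fun n => ((1 / 2 : ℝ) ^ (c n).1) ^ s)
        (fun i _ => by positivity) (Finset.mem_filter.2 ⟨hn, rfl⟩)
    have s2 : ∀ n ∈ J', ((1 / 2 : ℝ) ^ (c n).1) ^ s ≤ 2 ^ s * (D n ^ s + η n ^ s) := by
      intro n hn
      have h3 := (hc n (Finset.mem_filter.1 hn).2).2.2
      calc ((1 / 2 : ℝ) ^ (c n).1) ^ s ≤ (2 * d n) ^ s :=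
            Real.rpow_le_rpow (by positivity) h3 hs.le
        _ = 2 ^ s * d n ^ s := Real.mul_rpow (by norm_num) (hd0 n).le
        _ ≤ 2 ^ s * (D n ^ s + η n ^ s) := by
            gcongr
            have hDn : 0 ≤ D n := ENNReal.toReal_nonneg
            have hDs : 0 ≤ D n ^ s := Real.rpow_nonneg hDn s
            have hηn : 0 ≤ η n ^ s := Real.rpow_nonneg (hη0 n).le s
            rcases max_cases (D n) (η n) with ⟨h, _⟩ | ⟨h, _⟩
            · simp only [hd, h]; linarith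
            · simp only [hd, h]; linarith
    have s3 : ∑ n ∈ J', D n ^ s ≤ δ := by
      have h4 : ∑ n ∈ J', (ediam (t n)) ^ s ≤ ENNReal.ofReal δ := by
        calc ∑ n ∈ J', (ediam (t n)) ^ s ≤ ∑ n ∈ J', ⨆ _ : (t n).Nonempty, ediam (t n) ^ s := by
              apply Finset.sum_le_sum
              intro n hn
              have hne : (t n).Nonempty := by
                obtain ⟨x, hx, -⟩ := (Finset.mem_filter.1 hn).2
                exact ⟨x, hx⟩
              exact le_iSup (f := fun _ : (t n).Nonempty => ediam (t n) ^ s) hne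
          _ ≤ ∑' n, ⨆ _ : (t n).Nonempty, ediam (t n) ^ s := ENNReal.sum_le_tsum _
          _ ≤ ENNReal.ofReal δ := htδ.le
      have h5 := ENNReal.toReal_mono ENNReal.ofReal_ne_top h4
      rw [ENNReal.toReal_ofReal hδ.le, ENNReal.toReal_sum (fun n _ =>
        (ENNReal.rpow_lt_top_of_nonneg hs.le (hfin n)).ne)] at h5
      refine le_trans (le_of_eq ?_) h5
      apply Finset.sum_congr rfl
      intro n _
      rw [ENNReal.toReal_rpow]
    have s4 : ∑ n ∈ J', η n ^ s ≤ δ := by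
      have hsum : HasSum (fun n : ℕ => δ / 2 ^ (n + 1)) δ := by
        have := (hasSum_geometric_two.mul_left (δ / 2))
        have e : (fun n : ℕ => δ / 2 ^ (n + 1)) = fun n => δ / 2 * (1 / 2) ^ n := by
          funext n
          rw [pow_succ, one_div, inv_pow]
          field_simp
        rw [e]
        have e2 : δ / 2 * 2 = δ := by ring
        rwa [e2] at this
      calc ∑ n ∈ J', η n ^ s ≤ ∑ n ∈ J', δ / 2 ^ (n + 1) := Finset.sum_le_sum (fun n _ => hηs n)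
        _ ≤ δ := sum_le_hasSum _ (fun n _ => by positivity) hsum
    calc ∑ e ∈ J'.image c, ((1 / 2 : ℝ) ^ e.1) ^ s
        ≤ ∑ n ∈ J', ((1 / 2 : ℝ) ^ (c n).1) ^ s := s1
      _ ≤ ∑ n ∈ J', 2 ^ s * (D n ^ s + η n ^ s) := Finset.sum_le_sum s2
      _ = 2 ^ s * (∑ n ∈ J', D n ^ s + ∑ n ∈ J', η n ^ s) := by
          rw [← Finset.mul_sum, Finset.sum_add_distrib]
      _ ≤ 2 ^ s * (2 * δ) := by
          gcongr
          linarith

end Pool.Agent.Work.MP_19b229_an
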