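import Mathlib

set_option autoImplicit false

open MeasureTheory Filter Topology Set Metric
open scoped ENNReal

namespace Pool.Agent.Work.MP_19b229_an

/-- The fundamental solution `Γ` of `-Δ` in `ℝ^N`, `N ≥ 2`: `Γ(x) = -(2π)⁻¹ log |x|` for `N = 2`
and `Γ(x) = |x|^(2-N) / (N (N-2) |B|)` for `N ≥ 3`, where `|B|` is the volume of the unit ball. -/
noncomputable def Gam (N : ℕ) (x : EuclideanSpace ℝ (Fin N)) : ℝ :=
  if N = 2 then -((2 * Real.pi)⁻¹ * Real.log ‖x‖)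
  else (N * (N - 2) * (volume (ball (0 : EuclideanSpace ℝ (Fin N)) 1)).toReal)⁻¹ *
    ‖x‖ ^ (2 - (N : ℝ))

/-- The Newtonian potential `u_μ(x) = ∫ Γ(x - y) dμ(y)` of a finite signed measure `μ`, written
with the Jordan decomposition of `μ`. -/
noncomputable def pot {N : ℕ} (μ : SignedMeasure (EuclideanSpace ℝ (Fin N)))
    (x : EuclideanSpace ℝ (Fin N)) : ℝ :=
  (∫ y, Gam N (x - y) ∂μ.toJordanDecomposition.posPart) -
    ∫ y, Gam N (x - y) ∂μ.toJordanDecomposition.negPart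

/-- `μ` is a finite signed Borel measure on `Ω`, viewed as a measure on `ℝ^N` carried by `Ω`. -/
def CarriedBy {N : ℕ} (μ : SignedMeasure (EuclideanSpace ℝ (Fin N)))
    (Ω : Set (EuclideanSpace ℝ (Fin N))) : Prop :=
  μ.totalVariation Ωᶜ = 0

/-- The potential of `μ` agrees almost everywhere in `Ω` with a function which is Hölder continuous
with exponent `β` on `Ω`. -/
def HolderPotential {N : ℕ} (Ω : Set (EuclideanSpace ℝ (Fin N))) (β : ℝ)
    (μ : SignedMeasure (EuclideanSpace ℝ (Fin N))) : Prop :=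
  ∃ (v : EuclideanSpace ℝ (Fin N) → ℝ) (C : ℝ),
    (∀ x ∈ Ω, ∀ y ∈ Ω, |v x - v y| ≤ C * ‖x - y‖ ^ β) ∧
      ∀ᵐ x ∂(volume.restrict Ω), pot μ x = v x

end Pool.Agent.Work.MP_19b229_an
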