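import Pool.Agent.Work.MP_19b229_an.Part

set_option autoImplicit false

open MeasureTheory Filter Topology Set Metric
open scoped ENNReal

namespace Pool.Agent.Work.MP_19b229_an

variable {N : ℕ}

/-- the localised pieces -/
noncomputable def phi (c : ℕ × (Fin N → ℤ)) (L : List (ℕ × (Fin N → ℤ))) : TF N :=
  (psi c).mul (rem L)

/-- constant in the weights -/
noncomputable def WW (N : ℕ) : ℝ := CB * 6 ^ N * 2

/-- constant in the second derivative -/
noncomputable def C1 (N : ℕ) : ℝ := CB + 2 * CB * WW N + WW N + WW N ^ 2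

lemma WW_pos (N : ℕ) : 0 < WW N := by
  have := CB_one
  unfold WW
  positivity

lemma C1_pos (N : ℕ) : 0 < C1 N := by
  have := CB_one
  have := WW_pos N
  unfold C1
  positivity

lemma phi_d2 {c : ℕ × (Fin N → ℤ)} {L : List (ℕ × (Fin N → ℤ))} (hL : L.Nodup)
    (hM : ∀ d ∈ L, d.1 ≤ c.1) (i : Fin N) (x : EuclideanSpace ℝ (Fin N)) :
    |(phi c L).d2 i x| ≤ C1 N * 4 ^ c.1 := by
  have hA : AA L x ≤ WW N * 2 ^ c.1 := by
    refine (weight_le hL hM le_rfl x).trans (le_of_eq ?_)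
    unfold WW; ring
  have hB : BB L x ≤ WW N * 4 ^ c.1 := by
    refine (weight_le hL hM (by norm_num) x).trans (le_of_eq ?_)
    unfold WW; ring
  obtain ⟨h0, h1, h2⟩ := rem_bounds L x
  have hCB := CB_one
  have hW := WW_pos N
  have p0 := psi_nonneg c x
  have p1 := psi_le_one c x
  have q1 : |(psi c).d1 i x| ≤ CB * 2 ^ c.1 := by
    refine (psi_d1_le c i x).trans ?_
    apply indicator_le_self'
    intro _ _
    positivity
  have q2 : |(psi c).d2 i x| ≤ CB * 4 ^ c.1 := by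
    refine (psi_d2_le c i x).trans ?_
    apply indicator_le_self'
    intro _ _
    positivity
  have r1 := (h2 i).1
  have r2 := (h2 i).2
  have A0 := AA_nonneg L x
  have e1 : (phi c L).d2 i x = (psi c).d2 i x * (rem L).f x
      + 2 * ((psi c).d1 i x * (rem L).d1 i x) + (psi c).f x * (rem L).d2 i x := rfl
  rw [e1]
  have t1 : |(psi c).d2 i x * (rem L).f x| ≤ CB * 4 ^ c.1 * 1 := by
    rw [abs_mul, abs_of_nonneg h0]
    gcongr
  have t2 : |2 * ((psi c).d1 i x * (rem L).d1 i x)| ≤ 2 * (CB * 2 ^ c.1 * (WW N * 2 ^ c.1)) := by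
    rw [abs_mul, abs_mul, abs_two]
    gcongr
    exact r1.trans hA
  have t3 : |(psi c).f x * (rem L).d2 i x| ≤ 1 * (WW N * 4 ^ c.1 + (WW N * 2 ^ c.1) ^ 2) := by
    rw [abs_mul, abs_of_nonneg p0]
    gcongr
    refine r2.trans ?_
    gcongr
  have h4 : (4:ℝ) ^ c.1 = 2 ^ c.1 * 2 ^ c.1 := by rw [← mul_pow]; norm_num
  calc |(psi c).d2 i x * (rem L).f x + 2 * ((psi c).d1 i x * (rem L).d1 i x)
        + (psi c).f x * (rem L).d2 i x|
      ≤ |(psi c).d2 i x * (rem L).f x| + |2 * ((psi c).d1 i x * (rem L).d1 i x)|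
        + |(psi c).f x * (rem L).d2 i x| := abs_add_three _ _ _
    _ ≤ CB * 4 ^ c.1 * 1 + 2 * (CB * 2 ^ c.1 * (WW N * 2 ^ c.1))
        + 1 * (WW N * 4 ^ c.1 + (WW N * 2 ^ c.1) ^ 2) := by gcongr
    _ = C1 N * 4 ^ c.1 := by
        unfold C1
        rw [h4]
        ring

lemma phi_lap {c : ℕ × (Fin N → ℤ)} {L : List (ℕ × (Fin N → ℤ))} (hL : L.Nodup)
    (hM : ∀ d ∈ L, d.1 ≤ c.1) (x : EuclideanSpace ℝ (Fin N)) :
    |(phi c L).lap x| ≤ N * (C1 N * 4 ^ c.1) := by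
  unfold TF.lap
  refine (Finset.abs_sum_le_sum_abs _ _).trans ?_
  calc ∑ i, |(phi c L).d2 i x| ≤ ∑ _i : Fin N, C1 N * 4 ^ c.1 :=
        Finset.sum_le_sum (fun i _ => phi_d2 hL hM i x)
    _ = N * (C1 N * 4 ^ c.1) := by simp

lemma norm_le_sum (z : EuclideanSpace ℝ (Fin N)) : ‖z‖ ≤ ∑ j, |z j| := by
  have h : z = ∑ j, z j • ee j := by
    conv_lhs => rw [← (EuclideanSpace.basisFun (Fin N) ℝ).sum_repr z]
    apply Finset.sum_congr rfl
    intro j _
    simp [ee, EuclideanSpace.basisFun_apply]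
  conv_lhs => rw [h]
  refine (norm_sum_le _ _).trans ?_
  apply Finset.sum_le_sum
  intro j _
  rw [norm_smul, ee_norm, mul_one, Real.norm_eq_abs]

/-- the corner of a cube -/
noncomputable def cor (c : ℕ × (Fin N → ℤ)) : EuclideanSpace ℝ (Fin N) :=
  WithLp.toLp 2 (fun j => (c.2 j : ℝ) * (1 / 2) ^ c.1)

/-- the radius attached to a cube -/
noncomputable def rho (c : ℕ × (Fin N → ℤ)) : ℝ := 3 * N * (1 / 2) ^ c.1

lemma Rg_subset (c : ℕ × (Fin N → ℤ)) : Rg c ⊆ closedBall (cor c) (rho c) := by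
  intro x hx
  rw [mem_closedBall, dist_eq_norm]
  refine (norm_le_sum _).trans ?_
  have h1 : ∀ j, |(x - cor c) j| ≤ 3 * (1 / 2) ^ c.1 := by
    intro j
    have h := hx j
    rw [mem_Icc] at h
    unfold tc at h
    have e : (x - cor c) j = (2 ^ c.1 * x j - c.2 j) * (1 / 2) ^ c.1 := by
      have e1 : (x - cor c) j = x j - (c.2 j : ℝ) * (1 / 2) ^ c.1 := rfl
      have e2 : (2:ℝ) ^ c.1 * (1 / 2) ^ c.1 = 1 := by rw [← mul_pow]; norm_num
      rw [e1]
      linear_combination (-(x j)) * e2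
    rw [e, abs_mul, abs_of_pos (by positivity : (0:ℝ) < (1 / 2) ^ c.1)]
    gcongr
    rw [abs_le]
    constructor <;> linarith [h.1, h.2]
  calc ∑ j, |(x - cor c) j| ≤ ∑ _j : Fin N, (3 * (1 / 2) ^ c.1 : ℝ) :=
        Finset.sum_le_sum (fun j _ => h1 j)
    _ = rho c := by
        rw [Finset.sum_const, Finset.card_univ, Fintype.card_fin, nsmul_eq_mul, rho]
        ring

/-- the final constant -/
noncomputable def C2 (N : ℕ) (C β : ℝ) : ℝ :=
  (cK N)⁻¹ * (C * (3 * N) ^ β * (N * C1 N) * ((3 * N) ^ N *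
    (volume (ball (0 : EuclideanSpace ℝ (Fin N)) 1)).toReal))

lemma phi_est (hN : 2 ≤ N) {μ : SignedMeasure (EuclideanSpace ℝ (Fin N))}
    {Ω : Set (EuclideanSpace ℝ (Fin N))} (hΩb : Bornology.IsBounded Ω) (hμ : CarriedBy μ Ω)
    {v : EuclideanSpace ℝ (Fin N) → ℝ} {C β : ℝ} (hC0 : 0 ≤ C) (hβ : 0 < β)
    (hv : ∀ x ∈ Ω, ∀ y ∈ Ω, |v x - v y| ≤ C * ‖x - y‖ ^ β)
    (hpv : ∀ᵐ x ∂(volume.restrict Ω), pot μ x = v x)
    {c : ℕ × (Fin N → ℤ)} {L : List (ℕ × (Fin N → ℤ))} (hL : L.Nodup)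
    (hM : ∀ d ∈ L, d.1 ≤ c.1) (hΩ : closedBall (cor c) (rho c) ⊆ Ω) :
    |sint μ (phi c L).f| ≤ C2 N C β * ((1 / 2 : ℝ) ^ c.1) ^ ((N : ℝ) - 2 + β) := by
  have hN0 : (0:ℝ) < N := by
    have : 0 < N := by omega
    exact_mod_cast this
  set q : ℝ := (1 / 2 : ℝ) ^ c.1 with hq
  have hq0 : 0 < q := by positivity
  have hρ : 0 < rho c := by unfold rho; positivity
  have h := test_bound hN hΩb hμ hC0 hβ hv hpv (T := phi c L) hρ
    (((psi_van c).mul (rem L)).mono (Rg_subset c)) hΩ (phi_lap hL hM)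
  refine h.trans (le_of_eq ?_)
  have hNE : Nonempty (Fin N) := ⟨⟨0, by omega⟩⟩
  have e1 : (volume (closedBall (cor c) (rho c))).toReal = rho c ^ N *
      (volume (ball (0 : EuclideanSpace ℝ (Fin N)) 1)).toReal := by
    rw [Measure.addHaar_closedBall _ _ hρ.le, ENNReal.toReal_mul, finrank_euclideanSpace,
      Fintype.card_fin, ENNReal.toReal_ofReal (by positivity)]
  have e2 : rho c = 3 * N * q := rfl
  have e3 : rho c ^ β = (3 * N) ^ β * q ^ β := by
    rw [e2, Real.mul_rpow (by positivity) hq0.le]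
  have e4 : (4:ℝ) ^ c.1 * q ^ 2 = 1 := by
    rw [hq, ← pow_mul, mul_comm c.1 2, pow_mul, ← mul_pow]
    norm_num
  have e5 : q ^ ((N : ℝ) - 2 + β) * q ^ 2 = q ^ N * q ^ β := by
    rw [← Real.rpow_natCast q 2, ← Real.rpow_natCast q N, ← Real.rpow_add hq0,
      ← Real.rpow_add hq0]
    congr 1
    push_cast
    ring
  have e6 : q ^ ((N : ℝ) - 2 + β) = 4 ^ c.1 * (q ^ N * q ^ β) := by
    rw [← e5]
    linear_combination (-(q ^ ((N : ℝ) - 2 + β))) * e4
  rw [e1, e3, e6, e2, C2, mul_pow]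
  ring

lemma sint_add {μ : SignedMeasure (EuclideanSpace ℝ (Fin N))}
    {f g : EuclideanSpace ℝ (Fin N) → ℝ} (hf : Continuous f) (hg : Continuous g)
    (bf : ∀ x, |f x| ≤ 1) (bg : ∀ x, |g x| ≤ 1) :
    sint μ (fun x => f x + g x) = sint μ f + sint μ g := by
  have i : ∀ (m : Measure (EuclideanSpace ℝ (Fin N))) [IsFiniteMeasure m]
      {f : EuclideanSpace ℝ (Fin N) → ℝ}, Continuous f → (∀ x, |f x| ≤ 1) → Integrable f m := by
    intro m _ f hf bf
    exact Integrable.of_bound hf.aestronglyMeasurable 1 (Eventually.of_forall bf)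
  unfold sint
  rw [integral_add (i _ hf bf) (i _ hg bg), integral_add (i _ hf bf) (i _ hg bg)]
  ring

theorem sum_est (hN : 2 ≤ N) {μ : SignedMeasure (EuclideanSpace ℝ (Fin N))}
    {Ω : Set (EuclideanSpace ℝ (Fin N))} (hΩb : Bornology.IsBounded Ω) (hμ : CarriedBy μ Ω)
    {v : EuclideanSpace ℝ (Fin N) → ℝ} {C β : ℝ} (hC0 : 0 ≤ C) (hβ : 0 < β)
    (hv : ∀ x ∈ Ω, ∀ y ∈ Ω, |v x - v y| ≤ C * ‖x - y‖ ^ β)
    (hpv : ∀ᵐ x ∂(volume.restrict Ω), pot μ x = v x)
    (L : List (ℕ × (Fin N → ℤ))) (hL : L.Nodup) (hs : L.Pairwise (fun c d => d.1 ≤ c.1))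
    (hΩ : ∀ c ∈ L, closedBall (cor c) (rho c) ⊆ Ω) :
    |sint μ (fun x => 1 - (rem L).f x)| ≤
      C2 N C β * (L.map (fun c => ((1 / 2 : ℝ) ^ c.1) ^ ((N : ℝ) - 2 + β))).sum := by
  induction L with
  | nil =>
    have : ∀ x : EuclideanSpace ℝ (Fin N), 1 - (rem ([] : List (ℕ × (Fin N → ℤ)))).f x = 0 := by
      intro x
      change (1:ℝ) - 1 = 0
      ring
    simp only [this]
    simp [sint]
  | cons c L ih =>
    rw [List.nodup_cons] at hL
    rw [List.pairwise_cons] at hs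
    have ih' := ih hL.2 hs.2 (fun d hd => hΩ d (List.mem_cons_of_mem _ hd))
    have e : ∀ x, 1 - (rem (c :: L)).f x = (1 - (rem L).f x) + (phi c L).f x := by
      intro x
      change 1 - (1 - (psi c).f x) * (rem L).f x = (1 - (rem L).f x) + (psi c).f x * (rem L).f x
      ring
    simp_rw [e]
    have b1 : ∀ x, |1 - (rem L).f x| ≤ 1 := by
      intro x
      obtain ⟨h0, h1, -⟩ := rem_bounds L x
      rw [abs_le]
      constructor <;> linarith
    have b2 : ∀ x, |(phi c L).f x| ≤ 1 := by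
      intro x
      obtain ⟨h0, h1, -⟩ := rem_bounds L x
      have p0 := psi_nonneg c x
      have p1 := psi_le_one c x
      change |(psi c).f x * (rem L).f x| ≤ 1
      rw [abs_of_nonneg (mul_nonneg p0 h0)]
      calc (psi c).f x * (rem L).f x ≤ 1 * 1 := by gcongr
        _ = 1 := one_mul 1
    have hc1 : Continuous (fun x => 1 - (rem L).f x) := continuous_const.sub (rem L).cf
    rw [sint_add hc1 (phi c L).cf b1 b2, List.map_cons, List.sum_cons, mul_add]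
    refine (abs_add_le _ _).trans ?_
    have h3 := phi_est hN hΩb hμ hC0 hβ hv hpv hL.2 hs.1 (hΩ c List.mem_cons_self)
    linarith

end Pool.Agent.Work.MP_19b229_an
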