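import Mathlib

set_option autoImplicit false

open MeasureTheory Filter Topology Set
open scoped ENNReal

namespace Pool.Agent.Work.MP_19b229_an

/-- A finite measure absolutely continuous with respect to an arbitrary measure `H` is, up to small
mass, dominated by multiples of `H`. -/
theorem exists_good_sets {X : Type*} {m : MeasurableSpace X} (ν H : Measure X) [IsFiniteMeasure ν]
    (hac : ν ≪ H) : ∃ A : ℕ → Set X, (∀ n, MeasurableSet (A n)) ∧
      (∀ n B, MeasurableSet B → ν (B ∩ A n) ≤ n * H B) ∧
      Tendsto (fun n => ν (A n)ᶜ) atTop (𝓝 0) := by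
  set S := H.sigmaFiniteSetWRT ν with hS
  have hSm : MeasurableSet S := measurableSet_sigmaFiniteSetWRT
  set h := (ν.restrict S).rnDeriv (H.restrict S) with hh
  have hhm : Measurable h := Measure.measurable_rnDeriv _ _
  have hacS : ν.restrict S ≪ H.restrict S := hac.restrict S
  have hwd : (H.restrict S).withDensity h = ν.restrict S :=
    Measure.withDensity_rnDeriv_eq _ _ hacS
  have hfin : ∀ᵐ x ∂(H.restrict S), h x < ∞ := Measure.rnDeriv_lt_top _ _
  have hfin' : ∀ᵐ x ∂(ν.restrict S), h x < ∞ := hacS.ae_le hfin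
  set D : ℕ → Set X := fun n => {x | h x ≤ n} with hD
  have hDm : ∀ n, MeasurableSet (D n) := fun n => measurableSet_le hhm measurable_const
  refine ⟨fun n => if n = 0 then ∅ else Sᶜ ∪ (S ∩ D n), ?_, ?_, ?_⟩
  · intro n
    by_cases hn : n = 0
    · simp [hn]
    · simp only [hn, if_false]
      exact hSm.compl.union (hSm.inter (hDm n))
  · intro n B hB
    by_cases hn : n = 0
    · simp [hn]
    · simp only [hn, if_false]
      have h1 : ν (B ∩ Sᶜ) ≤ H (B ∩ Sᶜ) := by
        by_cases h0 : ν (B ∩ Sᶜ) = 0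
        · rw [h0]; exact zero_le
        · rw [measure_eq_top_of_subset_compl_sigmaFiniteSetWRT inter_subset_right h0]
          exact le_top
      have h2 : ν (B ∩ (S ∩ D n)) ≤ n * H (B ∩ S) := by
        have e : B ∩ (S ∩ D n) = (B ∩ D n) ∩ S := by
          ext x; simp only [mem_inter_iff]; tauto
        rw [e, ← Measure.restrict_apply (hB.inter (hDm n)), ← hwd,
          withDensity_apply _ (hB.inter (hDm n))]
        calc ∫⁻ x in B ∩ D n, h x ∂(H.restrict S) ≤ ∫⁻ x in B ∩ D n, (n : ℝ≥0∞) ∂(H.restrict S) := by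
              apply setLIntegral_mono measurable_const
              intro x hx
              exact hx.2
          _ = n * (H.restrict S) (B ∩ D n) := by rw [setLIntegral_const]
          _ ≤ n * (H.restrict S) B := by gcongr; exact inter_subset_left
          _ = n * H (B ∩ S) := by rw [Measure.restrict_apply hB]
      have hn1 : (1 : ℝ≥0∞) ≤ n := by exact_mod_cast Nat.one_le_iff_ne_zero.2 hn
      calc ν (B ∩ (Sᶜ ∪ S ∩ D n)) = ν ((B ∩ Sᶜ) ∪ (B ∩ (S ∩ D n))) := by
            rw [inter_union_distrib_left]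
        _ ≤ ν (B ∩ Sᶜ) + ν (B ∩ (S ∩ D n)) := measure_union_le _ _
        _ ≤ n * H (B ∩ Sᶜ) + n * H (B ∩ S) := by
            gcongr
            calc ν (B ∩ Sᶜ) ≤ 1 * H (B ∩ Sᶜ) := by rw [one_mul]; exact h1
              _ ≤ n * H (B ∩ Sᶜ) := by gcongr
        _ = n * (H (B ∩ S) + H (B ∩ Sᶜ)) := by rw [mul_add, add_comm]
        _ = n * H B := by
            congr 1
            have := measure_inter_add_diff (μ := H) B hSm
            rwa [Set.sdiff_eq] at this
  · have hanti : Antitone (fun n => S ∩ (D n)ᶜ) := by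
      intro a b hab x hx
      refine ⟨hx.1, fun hxa => hx.2 ?_⟩
      simp only [hD, mem_setOf_eq] at hxa ⊢
      exact hxa.trans (by exact_mod_cast hab)
    have hlim : Tendsto (fun n => ν (S ∩ (D n)ᶜ)) atTop (𝓝 (ν (⋂ n, S ∩ (D n)ᶜ))) :=
      tendsto_measure_iInter_atTop
        (fun n => (hSm.inter (hDm n).compl).nullMeasurableSet) hanti ⟨0, measure_ne_top _ _⟩
    have hzero : ν (⋂ n, S ∩ (D n)ᶜ) = 0 := by
      have h3 : (⋂ n, S ∩ (D n)ᶜ) ⊆ {x | ¬ h x < ∞} ∩ S := by
        intro x hx
        rw [mem_iInter] at hx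
        refine ⟨fun hlt => ?_, (hx 0).1⟩
        obtain ⟨n, hn⟩ := ENNReal.exists_nat_gt hlt.ne
        exact (hx n).2 hn.le
      refine measure_mono_null h3 ?_
      have h4 := hfin'
      rw [ae_iff] at h4
      rwa [Measure.restrict_apply (by
        have : MeasurableSet {x | h x < ∞} := measurableSet_lt hhm measurable_const
        exact this.compl)] at h4
    rw [hzero] at hlim
    refine hlim.congr' ?_
    filter_upwards [eventually_ne_atTop 0] with n hn
    simp only [hn, if_false]
    congr 1
    ext x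
    simp only [mem_inter_iff, mem_compl_iff, mem_union]
    tauto

end Pool.Agent.Work.MP_19b229_an
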