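import Pool.Agent.Work.MP_19b229_an.Cover
import Pool.Agent.Work.MP_19b229_an.Exhaust

set_option autoImplicit false

open MeasureTheory Filter Topology Set Metric
open scoped ENNReal NNReal

namespace Pool.Agent.Work.MP_19b229_an

variable {N : ℕ}

lemma totalVariation_eq (μ : SignedMeasure (EuclideanSpace ℝ (Fin N))) :
    μ.totalVariation = μ.toJordanDecomposition.posPart + μ.toJordanDecomposition.negPart := rfl

/-- one step estimate at scale `r` -/
lemma compact_est (hN : 2 ≤ N) {μ : SignedMeasure (EuclideanSpace ℝ (Fin N))}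
    {Ω : Set (EuclideanSpace ℝ (Fin N))} (hΩb : Bornology.IsBounded Ω) (hμ : CarriedBy μ Ω)
    {v : EuclideanSpace ℝ (Fin N) → ℝ} {C β : ℝ} (hC0 : 0 ≤ C) (hβ : 0 < β)
    (hv : ∀ x ∈ Ω, ∀ y ∈ Ω, |v x - v y| ≤ C * ‖x - y‖ ^ β)
    (hpv : ∀ᵐ x ∂(volume.restrict Ω), pot μ x = v x)
    {E : Set (EuclideanSpace ℝ (Fin N))} (hE : IsCompact E)
    (h0 : Measure.hausdorffMeasure ((N : ℝ) - 2 + β) E = 0) {r : ℝ} (hr : 0 < r) (hr1 : r ≤ 1)
    (hrΩ : cthickening (12 * N * r) E ⊆ Ω) :
    |(μ.toJordanDecomposition.posPart E).toReal - (μ.toJordanDecomposition.negPart E).toReal|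
      ≤ (μ.totalVariation (cthickening (12 * N * r) E \ E)).toReal := by
  have hN0 : (0:ℝ) < N := by
    have : 0 < N := by omega
    exact_mod_cast this
  have hN2 : (2:ℝ) ≤ N := by exact_mod_cast hN
  set s : ℝ := (N : ℝ) - 2 + β with hs
  have hs0 : 0 < s := by linarith
  set K := cthickening (12 * N * r) E with hK
  have hEm : MeasurableSet E := hE.isClosed.measurableSet
  have hKm : MeasurableSet K := isClosed_cthickening.measurableSet
  have hKE : MeasurableSet (K \ E) := hKm.diff hEm
  have hEK : E ⊆ K := self_subset_cthickening E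
  have key : ∀ δ : ℝ, 0 < δ →
      |(μ.toJordanDecomposition.posPart E).toReal - (μ.toJordanDecomposition.negPart E).toReal|
      ≤ (μ.totalVariation (K \ E)).toReal + C2 N C β * (2 ^ s * (2 * δ)) := by
    intro δ hδ
    obtain ⟨F, hF1, hF2, hF3, hF4⟩ := exists_cover hs0 hE h0 hr hr1 hδ
    obtain ⟨L, hL1, hL2, hL3, hL4⟩ := exists_sorted F
    -- the balls are inside `K`
    have hball : ∀ c ∈ F, closedBall (cor c) (rho c) ⊆ K := by
      intro c hc y hy
      obtain ⟨x, hxE, hxR⟩ := hF2 c hc
      have h1 := Rg_subset c hxR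
      apply mem_cthickening_of_dist_le y x _ _ hxE
      rw [mem_closedBall] at hy h1
      have h2 : rho c ≤ 6 * N * r := by
        unfold rho
        have := hF3 c hc
        calc 3 * N * (1 / 2) ^ c.1 ≤ 3 * N * (2 * r) := by gcongr
          _ = 6 * N * r := by ring
      calc dist y x ≤ dist y (cor c) + dist x (cor c) := dist_triangle_right _ _ _
        _ ≤ 12 * N * r := by linarith
    have hest := sum_est hN hΩb hμ hC0 hβ hv hpv L hL1 hL2
      (fun c hc => (hball c ((hL3 c).1 hc)).trans hrΩ)
    rw [hL4 (fun c => ((1 / 2 : ℝ) ^ c.1) ^ ((N : ℝ) - 2 + β))] at hest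
    have hC2 : 0 ≤ C2 N C β := by
      have := cK_pos hN
      have := C1_pos N
      unfold C2
      positivity
    have hest2 : |sint μ (fun x => 1 - (rem L).f x)| ≤ C2 N C β * (2 ^ s * (2 * δ)) :=
      hest.trans (by gcongr)
    -- compare with the indicator of `E`
    set G : EuclideanSpace ℝ (Fin N) → ℝ := fun x => 1 - (rem L).f x with hG
    have hGc : Continuous G := continuous_const.sub (rem L).cf
    have hG01 : ∀ x, 0 ≤ G x ∧ G x ≤ 1 := by
      intro x
      obtain ⟨h0, h1, -⟩ := rem_bounds L x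
      simp only [hG]
      constructor <;> linarith
    have hGE : ∀ x ∈ E, G x = 1 := by
      intro x hx
      obtain ⟨c, hc, hxc⟩ := mem_iUnion₂.1 (hF1 hx)
      simp only [hG]
      rw [rem_zero ((hL3 c).2 hc) (psi_one hxc)]
      ring
    have hGK : ∀ x ∉ K, G x = 0 := by
      intro x hx
      simp only [hG]
      rw [rem_one (fun c hc => ?_)]
      · ring
      · apply (psi_van c).f0
        intro hxR
        exact hx (hball c ((hL3 c).1 hc) (Rg_subset c hxR))
    have hint : ∀ (m : Measure (EuclideanSpace ℝ (Fin N))) [IsFiniteMeasure m],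
        |∫ x, G x ∂m - (m E).toReal| ≤ (m (K \ E)).toReal := by
      intro m _
      have e1 : (m E).toReal = ∫ x, E.indicator (fun _ => (1:ℝ)) x ∂m := by
        rw [integral_indicator hEm, setIntegral_const]
        simp [Measure.real]
      have e2 : (m (K \ E)).toReal = ∫ x, (K \ E).indicator (fun _ => (1:ℝ)) x ∂m := by
        rw [integral_indicator hKE, setIntegral_const]
        simp [Measure.real]
      have iG : Integrable G m := Integrable.of_bound hGc.aestronglyMeasurable 1
        (Eventually.of_forall (fun x => by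
          rw [Real.norm_eq_abs, abs_of_nonneg (hG01 x).1]; exact (hG01 x).2))
      have iE : Integrable (E.indicator (fun _ => (1:ℝ))) m :=
        (integrable_const (1:ℝ)).indicator hEm
      have iK : Integrable ((K \ E).indicator (fun _ => (1:ℝ))) m :=
        (integrable_const (1:ℝ)).indicator hKE
      rw [e1, e2, ← integral_sub iG iE]
      refine (abs_integral_le_integral_abs).trans ?_
      apply integral_mono (iG.sub iE).abs iK
      intro x
      simp only [Pi.sub_apply]
      by_cases hxE : x ∈ E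
      · have : x ∉ K \ E := fun h => h.2 hxE
        simp only [indicator, hxE, this, if_true, if_false, hGE x hxE]
        simp
      · by_cases hxK : x ∈ K
        · have : x ∈ K \ E := ⟨hxK, hxE⟩
          simp only [indicator, hxE, this, if_true, if_false, sub_zero]
          rw [abs_of_nonneg (hG01 x).1]
          exact (hG01 x).2
        · have : x ∉ K \ E := fun h => hxK h.1
          simp only [indicator, hxE, this, if_false, hGK x hxK]
          simp
    have h1 := hint μ.toJordanDecomposition.posPart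
    have h2 := hint μ.toJordanDecomposition.negPart
    have h3 : (μ.totalVariation (K \ E)).toReal = (μ.toJordanDecomposition.posPart (K \ E)).toReal
        + (μ.toJordanDecomposition.negPart (K \ E)).toReal := by
      rw [totalVariation_eq, Measure.add_apply, ENNReal.toReal_add (measure_ne_top _ _)
        (measure_ne_top _ _)]
    rw [h3]
    rw [sint] at hest2
    rw [abs_le] at h1 h2 hest2 ⊢
    constructor <;> linarith [h1.1, h1.2, h2.1, h2.2, hest2.1, hest2.2]
  -- let `δ` tend to zero
  have hlim : Tendsto (fun δ : ℝ => (μ.totalVariation (K \ E)).toReal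
      + C2 N C β * (2 ^ s * (2 * δ))) (𝓝[>] 0) (𝓝 ((μ.totalVariation (K \ E)).toReal)) := by
    have hc : Continuous (fun δ : ℝ => (μ.totalVariation (K \ E)).toReal
      + C2 N C β * (2 ^ s * (2 * δ))) := by fun_prop
    have := (hc.tendsto 0).mono_left (nhdsWithin_le_nhds (s := Ioi (0:ℝ)))
    simpa using this
  apply ge_of_tendsto hlim
  filter_upwards [self_mem_nhdsWithin] with δ hδ
  exact key δ hδ

/-- compact sets of zero Hausdorff measure carry no net charge -/
lemma compact_null (hN : 2 ≤ N) {μ : SignedMeasure (EuclideanSpace ℝ (Fin N))}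
    {Ω : Set (EuclideanSpace ℝ (Fin N))} (hΩo : IsOpen Ω) (hΩb : Bornology.IsBounded Ω)
    (hμ : CarriedBy μ Ω) {β : ℝ} (hβ : 0 < β) (hpot : HolderPotential Ω β μ)
    {E : Set (EuclideanSpace ℝ (Fin N))} (hE : IsCompact E) (hEΩ : E ⊆ Ω)
    (h0 : Measure.hausdorffMeasure ((N : ℝ) - 2 + β) E = 0) :
    (μ.toJordanDecomposition.posPart E).toReal = (μ.toJordanDecomposition.negPart E).toReal := by
  obtain ⟨v, C, hv, hpv⟩ := hpot
  have hN0 : (0:ℝ) < N := by
    have : 0 < N := by omega
    exact_mod_cast this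
  set C' := max C 0 with hC'
  have hC0 : 0 ≤ C' := le_max_right _ _
  have hv' : ∀ x ∈ Ω, ∀ y ∈ Ω, |v x - v y| ≤ C' * ‖x - y‖ ^ β := by
    intro x hx y hy
    refine (hv x hx y hy).trans ?_
    gcongr
    exact le_max_left _ _
  have hfinV : IsFiniteMeasure μ.totalVariation := by
    rw [totalVariation_eq]; infer_instance
  have hEm : MeasurableSet E := hE.isClosed.measurableSet
  -- the thickening is inside
  obtain ⟨R, hR, hRΩ⟩ := hE.exists_cthickening_subset_open hΩo hEΩ
  have ht : Tendsto (fun r : ℝ => μ.totalVariation (cthickening r E)) (𝓝 0)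
      (𝓝 (μ.totalVariation E)) :=
    tendsto_measure_cthickening_of_isClosed ⟨1, one_pos, measure_ne_top _ _⟩ hE.isClosed
  have ht2 : Tendsto (fun r : ℝ => (μ.totalVariation (cthickening (12 * N * r) E)).toReal
      - (μ.totalVariation E).toReal) (𝓝[>] 0) (𝓝 0) := by
    have h1 : Tendsto (fun r : ℝ => 12 * N * r) (𝓝[>] 0) (𝓝 0) := by
      have hc : Continuous (fun r : ℝ => 12 * (N:ℝ) * r) := by fun_prop
      have := (hc.tendsto 0).mono_left (nhdsWithin_le_nhds (s := Ioi (0:ℝ)))
      simpa using this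
    have h2 := (ENNReal.tendsto_toReal (measure_ne_top μ.totalVariation E)).comp (ht.comp h1)
    have h3 := h2.sub_const ((μ.totalVariation E).toReal)
    rw [sub_self] at h3
    exact h3
  have hbound : ∀ᶠ r : ℝ in 𝓝[>] 0, |(μ.toJordanDecomposition.posPart E).toReal
      - (μ.toJordanDecomposition.negPart E).toReal| ≤
      (μ.totalVariation (cthickening (12 * N * r) E)).toReal - (μ.totalVariation E).toReal := by
    have h1 : ∀ᶠ r : ℝ in 𝓝[>] 0, 12 * N * r ≤ R := by
      have hc : Continuous (fun r : ℝ => 12 * (N:ℝ) * r) := by fun_prop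
      have := (hc.tendsto 0).mono_left (nhdsWithin_le_nhds (s := Ioi (0:ℝ)))
      simp only [mul_zero] at this
      exact this.eventually_le_const hR
    have h2 : ∀ᶠ r : ℝ in 𝓝[>] 0, r ≤ 1 := by
      have : Tendsto (fun r : ℝ => r) (𝓝[>] 0) (𝓝 0) := tendsto_id.mono_left nhdsWithin_le_nhds
      exact this.eventually_le_const one_pos
    filter_upwards [self_mem_nhdsWithin, h1, h2] with r hr hrR hr1
    have h3 := compact_est hN hΩb hμ hC0 hβ hv' hpv hE h0 hr hr1
      ((cthickening_mono hrR E).trans hRΩ)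
    refine h3.trans (le_of_eq ?_)
    rw [measure_sdiff (self_subset_cthickening E) hEm.nullMeasurableSet (measure_ne_top _ _),
      ENNReal.toReal_sub_of_le (measure_mono (self_subset_cthickening E)) (measure_ne_top _ _)]
  have h4 := ge_of_tendsto ht2 hbound
  have h5 := abs_nonpos_iff.1 h4
  linarith

/-- the total variation is absolutely continuous with respect to Hausdorff measure -/
theorem variation_ac (hN : 2 ≤ N) {μ : SignedMeasure (EuclideanSpace ℝ (Fin N))}
    {Ω : Set (EuclideanSpace ℝ (Fin N))} (hΩo : IsOpen Ω) (hΩb : Bornology.IsBounded Ω)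
    (hμ : CarriedBy μ Ω) {β : ℝ} (hβ : 0 < β) (hpot : HolderPotential Ω β μ) :
    μ.totalVariation ≪ (Measure.hausdorffMeasure ((N : ℝ) - 2 + β) :
      Measure (EuclideanSpace ℝ (Fin N))) := by
  obtain ⟨p1, p2⟩ := carried_parts hμ
  obtain ⟨P, hPm, hP1, hP2⟩ := μ.toJordanDecomposition.mutuallySingular
  -- `posPart P = 0`, `negPart Pᶜ = 0`
  have main : ∀ (a b : Measure (EuclideanSpace ℝ (Fin N))) [IsFiniteMeasure a] [IsFiniteMeasure b]
      (Q : Set (EuclideanSpace ℝ (Fin N))), MeasurableSet Q → b Q = 0 → a Qᶜ = 0 → a Ωᶜ = 0 →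
      (∀ E : Set (EuclideanSpace ℝ (Fin N)), IsCompact E → E ⊆ Ω →
        Measure.hausdorffMeasure ((N : ℝ) - 2 + β) E = 0 → (a E).toReal = (b E).toReal) →
      a ≪ (Measure.hausdorffMeasure ((N : ℝ) - 2 + β) :
        Measure (EuclideanSpace ℝ (Fin N))) := by
    intro a b _ _ Q hQm hbQ haQ haΩ hab
    apply Measure.AbsolutelyContinuous.mk
    intro B hB hB0
    by_contra hne
    have h1 : a (B ∩ Q ∩ Ω) = a B := by
      apply measure_congr
      have hQ : ∀ᵐ x ∂a, x ∈ Q := haQ
      have hΩ' : ∀ᵐ x ∂a, x ∈ Ω := haΩ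
      filter_upwards [hQ, hΩ'] with x hxQ hxΩ
      apply propext
      constructor
      · exact fun h => h.1.1
      · exact fun h => ⟨⟨h, hxQ⟩, hxΩ⟩
    have hm : MeasurableSet (B ∩ Q ∩ Ω) := (hB.inter hQm).inter hΩo.measurableSet
    have hpos : 0 < a (B ∩ Q ∩ Ω) := by
      rw [h1]; exact pos_iff_ne_zero.2 hne
    obtain ⟨E, hEsub, hEc, hEpos⟩ := hm.exists_lt_isCompact hpos
    have h2 : Measure.hausdorffMeasure ((N : ℝ) - 2 + β) E = 0 :=
      measure_mono_null (fun x hx => (hEsub hx).1.1) hB0
    have h3 := hab E hEc (fun x hx => (hEsub hx).2) h2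
    have h4 : b E = 0 := measure_mono_null (fun x hx => (hEsub hx).1.2) hbQ
    rw [h4, ENNReal.toReal_zero, ENNReal.toReal_eq_zero_iff] at h3
    rcases h3 with h | h
    · exact hEpos.ne' h
    · exact measure_ne_top _ _ h
  have ha := main μ.toJordanDecomposition.posPart μ.toJordanDecomposition.negPart Pᶜ hPm.compl hP2
    (by rw [compl_compl]; exact hP1) p1 (fun E hE hEΩ h0 =>
      compact_null hN hΩo hΩb hμ hβ hpot hE hEΩ h0)
  have hb := main μ.toJordanDecomposition.negPart μ.toJordanDecomposition.posPart P hPm hP1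
    hP2 p2 (fun E hE hEΩ h0 => (compact_null hN hΩo hΩb hμ hβ hpot hE hEΩ h0).symm)
  rw [totalVariation_eq]
  exact ha.add_left hb

end Pool.Agent.Work.MP_19b229_an
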