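import Pool.Agent.Work.MP_19b229_an.Kernel

set_option autoImplicit false

open MeasureTheory Filter Topology Set Metric
open scoped ENNReal

namespace Pool.Agent.Work.MP_19b229_an

/-- Test functions with explicit coordinate derivatives up to order two. -/
structure TF (N : ℕ) where
  f : EuclideanSpace ℝ (Fin N) → ℝ
  d1 : Fin N → EuclideanSpace ℝ (Fin N) → ℝ
  d2 : Fin N → EuclideanSpace ℝ (Fin N) → ℝ
  h1 : ∀ i x, HasLineDerivAt ℝ f (d1 i x) x (ee i)
  h2 : ∀ i x, HasLineDerivAt ℝ (d1 i) (d2 i x) x (ee i)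
  cf : Continuous f
  c1 : ∀ i, Continuous (d1 i)
  c2 : ∀ i, Continuous (d2 i)

/-- the Laplacian -/
noncomputable def TF.lap {N : ℕ} (T : TF N) (x : EuclideanSpace ℝ (Fin N)) : ℝ := ∑ i, T.d2 i x

/-- the test function and its derivatives vanish off `K` -/
structure TF.Van {N : ℕ} (T : TF N) (K : Set (EuclideanSpace ℝ (Fin N))) : Prop where
  f0 : ∀ x ∉ K, T.f x = 0
  d10 : ∀ i, ∀ x ∉ K, T.d1 i x = 0
  d20 : ∀ i, ∀ x ∉ K, T.d2 i x = 0

variable {N : ℕ}

lemma TF.lap_cont (T : TF N) : Continuous T.lap :=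
  continuous_finset_sum _ (fun i _ => T.c2 i)

lemma TF.Van.lap0 {T : TF N} {K : Set (EuclideanSpace ℝ (Fin N))} (h : T.Van K) :
    ∀ x ∉ K, T.lap x = 0 := fun x hx => Finset.sum_eq_zero (fun i _ => h.d20 i x hx)

lemma int_mul {K : Set (EuclideanSpace ℝ (Fin N))} (hK : IsCompact K)
    {a b : EuclideanSpace ℝ (Fin N) → ℝ} (ha : Continuous a) (hb : Continuous b)
    (hb0 : ∀ x ∉ K, b x = 0) : Integrable (fun x => a x * b x) := by
  apply (ha.mul hb).integrable_of_hasCompactSupport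
  apply HasCompactSupport.intro hK
  intro x hx
  simp [hb0 x hx]

lemma ibp {K : Set (EuclideanSpace ℝ (Fin N))} (hK : IsCompact K) (i : Fin N)
    {f f' g g' : EuclideanSpace ℝ (Fin N) → ℝ} (cf : Continuous f) (cf' : Continuous f')
    (cg : Continuous g) (cg' : Continuous g') (hg0 : ∀ x ∉ K, g x = 0) (hg0' : ∀ x ∉ K, g' x = 0)
    (hf : ∀ x, HasLineDerivAt ℝ f (f' x) x (ee i)) (hg : ∀ x, HasLineDerivAt ℝ g (g' x) x (ee i)) :
    ∫ x, f x * g' x = - ∫ x, f' x * g x := by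
  have := integral_bilinear_hasLineDerivAt_right_eq_neg_left_of_integrable
    (μ := (volume : Measure (EuclideanSpace ℝ (Fin N)))) (f := f) (f' := f') (g := g) (g' := g')
    (v := ee i) (B := ContinuousLinearMap.mul ℝ ℝ)
    (by simpa using int_mul hK cf' cg hg0) (by simpa using int_mul hK cf cg' hg0')
    (by simpa using int_mul hK cf cg hg0) (fun x _ => hf x) (fun x _ => hg x)
  simpa using this

lemma lap_integral_zero {T : TF N} {K : Set (EuclideanSpace ℝ (Fin N))} (hK : IsCompact K)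
    (hT : T.Van K) : ∫ x, T.lap x = 0 := by
  unfold TF.lap
  rw [integral_finset_sum]
  · apply Finset.sum_eq_zero
    intro i _
    have := ibp hK i (f := fun _ => (1:ℝ)) (f' := fun _ => 0) continuous_const continuous_const
      (T.c1 i) (T.c2 i) (hT.d10 i) (hT.d20 i) (fun x => by
        unfold HasLineDerivAt; exact hasDerivAt_const _ _) (T.h2 i)
    simpa using this
  · intro i _
    have := int_mul hK (a := fun _ => (1:ℝ)) continuous_const (T.c2 i) (hT.d20 i)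
    simpa using this

lemma reg_cont {δ : ℝ} (hδ : 0 < δ) (y : EuclideanSpace ℝ (Fin N)) :
    Continuous (fun x => gam N (‖x - y‖ ^ 2 + δ)) := by
  rw [continuous_iff_continuousAt]
  intro x
  have h1 : ContinuousAt (gam N) (‖x - y‖ ^ 2 + δ) := (gam_hasDeriv (reg_pos hδ x y)).continuousAt
  have h2 : Continuous (fun x => ‖x - y‖ ^ 2 + δ) := by fun_prop
  exact ContinuousAt.comp (f := fun x => ‖x - y‖ ^ 2 + δ) h1 h2.continuousAt

lemma pow_cont {δ : ℝ} (hδ : 0 < δ) (y : EuclideanSpace ℝ (Fin N)) (p : ℝ) :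
    Continuous (fun x => (‖x - y‖ ^ 2 + δ) ^ p) := by
  have h2 : Continuous (fun x => ‖x - y‖ ^ 2 + δ) := by fun_prop
  exact h2.rpow_const (fun x => Or.inl (reg_pos hδ x y).ne')

lemma coord_cont (i : Fin N) (y : EuclideanSpace ℝ (Fin N)) :
    Continuous (fun x => (x - y) i) := by fun_prop

/-- Green identity with the regularised kernel. -/
lemma green_reg {T : TF N} {K : Set (EuclideanSpace ℝ (Fin N))} (hK : IsCompact K)
    (hT : T.Van K) {δ : ℝ} (hδ : 0 < δ) (y : EuclideanSpace ℝ (Fin N)) :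
    ∫ x, gam N (‖x - y‖ ^ 2 + δ) * T.lap x =
      -∫ x, (2 * kap N * N * δ * (‖x - y‖ ^ 2 + δ) ^ (-((N : ℝ) / 2) - 1)) * T.f x := by
  have cr := reg_cont (N := N) hδ y
  have cd1 : ∀ i : Fin N, Continuous (fun x =>
      -(kap N * (‖x - y‖ ^ 2 + δ) ^ (-((N : ℝ) / 2))) * (2 * (x - y) i)) := fun i =>
    ((continuous_const.mul (pow_cont hδ y _)).neg).mul (continuous_const.mul (coord_cont i y))
  have cd2 : ∀ i : Fin N, Continuous (fun x =>
      kap N * (N / 2) * (‖x - y‖ ^ 2 + δ) ^ (-((N : ℝ) / 2) - 1) * (2 * (x - y) i) ^ 2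
        - 2 * kap N * (‖x - y‖ ^ 2 + δ) ^ (-((N : ℝ) / 2))) := fun i =>
    ((continuous_const.mul (pow_cont hδ y _)).mul
      ((continuous_const.mul (coord_cont i y)).pow 2)).sub
      (continuous_const.mul (pow_cont hδ y _))
  have key : ∀ i : Fin N, ∫ x, gam N (‖x - y‖ ^ 2 + δ) * T.d2 i x =
      ∫ x, (kap N * (N / 2) * (‖x - y‖ ^ 2 + δ) ^ (-((N : ℝ) / 2) - 1) * (2 * (x - y) i) ^ 2
        - 2 * kap N * (‖x - y‖ ^ 2 + δ) ^ (-((N : ℝ) / 2))) * T.f x := by
    intro i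
    have e1 := ibp hK i cr (cd1 i) (T.c1 i) (T.c2 i) (hT.d10 i) (hT.d20 i)
      (fun x => reg_d1 hδ i x y) (T.h2 i)
    have e2 := ibp hK i (cd1 i) (cd2 i) T.cf (T.c1 i) hT.f0 (hT.d10 i)
      (fun x => reg_d2 hδ i x y) (T.h1 i)
    rw [e1, e2, neg_neg]
  have e3 : ∀ x, gam N (‖x - y‖ ^ 2 + δ) * T.lap x = ∑ i, gam N (‖x - y‖ ^ 2 + δ) * T.d2 i x := by
    intro x
    rw [TF.lap, Finset.mul_sum]
  simp_rw [e3]
  rw [integral_finset_sum _ (fun i _ => int_mul hK cr (T.c2 i) (hT.d20 i))]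
  simp_rw [key]
  rw [← integral_finset_sum _ (fun i _ => int_mul hK (cd2 i) T.cf hT.f0)]
  simp_rw [← Finset.sum_mul, reg_sum hδ]
  rw [← integral_neg]
  simp only [neg_mul]

/-- the normalising constant -/
noncomputable def cK (N : ℕ) : ℝ :=
  2 * kap N * N * ∫ z : EuclideanSpace ℝ (Fin N), (‖z‖ ^ 2 + 1) ^ (-((N : ℝ) / 2) - 1)

lemma jap_integrable : Integrable (fun z : EuclideanSpace ℝ (Fin N) =>
    (‖z‖ ^ 2 + 1) ^ (-((N : ℝ) / 2) - 1)) := by
  have h := integrable_rpow_neg_one_add_norm_sq (E := EuclideanSpace ℝ (Fin N))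
    (μ := (volume : Measure (EuclideanSpace ℝ (Fin N)))) (r := (N : ℝ) + 2) (by simp)
  refine h.congr (Eventually.of_forall (fun z => ?_))
  simp only
  rw [add_comm]
  congr 1
  ring

lemma cK_pos (hN : 2 ≤ N) : 0 < cK N := by
  unfold cK
  have h1 := kap_pos hN
  have h2 : (0:ℝ) < N := by
    have : 0 < N := by omega
    exact_mod_cast this
  apply mul_pos (by positivity)
  rw [integral_pos_iff_support_of_nonneg (fun z => by positivity) jap_integrable]
  have : Function.support (fun z : EuclideanSpace ℝ (Fin N) =>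
      (‖z‖ ^ 2 + 1) ^ (-((N : ℝ) / 2) - 1)) = univ := by
    ext z
    simp only [Function.mem_support, mem_univ, iff_true]
    positivity
  rw [this]
  exact (isOpen_univ.measure_pos volume ⟨0, trivial⟩)

/-- the right side of the regularised identity in rescaled variables -/
lemma rhs_rescale {T : TF N} {ε : ℝ} (hε : 0 < ε) (y : EuclideanSpace ℝ (Fin N)) :
    ∫ x, (2 * kap N * N * ε ^ 2 * (‖x - y‖ ^ 2 + ε ^ 2) ^ (-((N : ℝ) / 2) - 1)) * T.f x =
      ∫ z, 2 * kap N * N * ((‖z‖ ^ 2 + 1) ^ (-((N : ℝ) / 2) - 1) * T.f (y + ε • z)) := by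
  rw [← integral_add_left_eq_self _ y]
  simp only [add_sub_cancel_left]
  have h := Measure.integral_comp_smul (volume : Measure (EuclideanSpace ℝ (Fin N)))
    (fun z => (2 * kap N * N * ε ^ 2 * (‖z‖ ^ 2 + ε ^ 2) ^ (-((N : ℝ) / 2) - 1)) * T.f (y + z)) ε
  simp only [finrank_euclideanSpace, Fintype.card_fin, smul_eq_mul] at h
  have hεN : 0 < ε ^ N := by positivity
  rw [abs_of_pos (by positivity)] at h
  have h2 : ∫ x : EuclideanSpace ℝ (Fin N), (2 * kap N * N * ε ^ 2 * (‖x‖ ^ 2 + ε ^ 2) ^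
      (-((N : ℝ) / 2) - 1)) * T.f (y + x) = ε ^ N * ∫ z : EuclideanSpace ℝ (Fin N),
      (2 * kap N * N * ε ^ 2 * (‖ε • z‖ ^ 2 + ε ^ 2) ^ (-((N : ℝ) / 2) - 1)) * T.f (y + ε • z) := by
    rw [h, ← mul_assoc, mul_inv_cancel₀ hεN.ne', one_mul]
  rw [h2, ← integral_const_mul]
  apply integral_congr_ae
  refine Eventually.of_forall (fun z => ?_)
  simp only
  have e1 : ‖ε • z‖ ^ 2 + ε ^ 2 = ε ^ 2 * (‖z‖ ^ 2 + 1) := by
    rw [norm_smul, Real.norm_eq_abs, abs_of_pos hε]; ring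
  have e2 : (ε ^ 2) ^ (-((N : ℝ) / 2) - 1) = (ε ^ N * ε ^ 2)⁻¹ := by
    rw [← Real.rpow_natCast ε 2, ← Real.rpow_mul hε.le, ← Real.rpow_natCast ε N, ← Real.rpow_add hε,
      ← Real.rpow_neg hε.le]
    congr 1
    push_cast
    ring
  rw [e1, Real.mul_rpow (by positivity) (by positivity), e2]
  field_simp

end Pool.Agent.Work.MP_19b229_an
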