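import Pool.Agent.Work.MP_19b229_an.Green

set_option autoImplicit false

open MeasureTheory Filter Topology Set Metric
open scoped ENNReal

namespace Pool.Agent.Work.MP_19b229_an

variable {N : ℕ}

/-- local integrability of the fundamental solution -/
lemma gam_integrableOn (hN : 2 ≤ N) (R : ℝ) :
    IntegrableOn (fun x : EuclideanSpace ℝ (Fin N) => gam N (‖x‖ ^ 2)) (ball 0 R) := by
  have : Nonempty (Fin N) := ⟨⟨0, by omega⟩⟩
  have : Nontrivial (EuclideanSpace ℝ (Fin N)) := inferInstance
  rw [integrableOn_fun_norm_addHaar (volume : Measure (EuclideanSpace ℝ (Fin N)))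
    (f := fun r => gam N (r ^ 2))]
  simp only [finrank_euclideanSpace, Fintype.card_fin, smul_eq_mul]
  by_cases h2 : N = 2
  · subst h2
    have hc : Continuous (fun r : ℝ => -((2 * Real.pi)⁻¹ * (r * Real.log r))) :=
      (continuous_const.mul Real.continuous_mul_log).neg
    have h1 : IntegrableOn (fun r : ℝ => -((2 * Real.pi)⁻¹ * (r * Real.log r))) (Ioo 0 R) :=
      (hc.integrableOn_Icc (a := 0) (b := R)).mono_set Ioo_subset_Icc_self
    refine h1.congr_fun (fun r _ => ?_) measurableSet_Ioo
    simp only [gam, if_true, Real.log_pow]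
    have : (Real.pi : ℝ) ≠ 0 := Real.pi_ne_zero
    push_cast
    field_simp
    ring
  · have hc : Continuous (fun r : ℝ => cN N * r) := by fun_prop
    have h1 : IntegrableOn (fun r : ℝ => cN N * r) (Ioo 0 R) :=
      (hc.integrableOn_Icc (a := 0) (b := R)).mono_set Ioo_subset_Icc_self
    refine h1.congr_fun (fun r hr => ?_) measurableSet_Ioo
    have hr0 : 0 < r := hr.1
    simp only [gam, h2, if_false]
    have e1 : (r ^ 2) ^ ((2 - (N : ℝ)) / 2) = r ^ (2 - (N : ℝ)) := by
      rw [← Real.rpow_natCast, ← Real.rpow_mul hr0.le]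
      congr 1
      push_cast
      ring
    have e2 : r ^ (N - 1) = r ^ ((N : ℝ) - 1) := by
      rw [← Real.rpow_natCast]
      congr 1
      rw [Nat.cast_sub (by omega)]
      simp
    rw [e1, e2]
    have e3 : r ^ ((N : ℝ) - 1) * r ^ (2 - (N : ℝ)) = r := by
      rw [← Real.rpow_add hr0]
      have : (N : ℝ) - 1 + (2 - N) = 1 := by ring
      rw [this, Real.rpow_one]
    calc cN N * r = cN N * (r ^ ((N : ℝ) - 1) * r ^ (2 - (N : ℝ))) := by rw [e3]
      _ = _ := by ring

/-- translated version -/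
lemma gam_integrableOn' (hN : 2 ≤ N) (y : EuclideanSpace ℝ (Fin N)) (R : ℝ) :
    IntegrableOn (fun x : EuclideanSpace ℝ (Fin N) => gam N (‖x - y‖ ^ 2)) (ball y R) := by
  have h := gam_integrableOn hN R
  rw [← integrable_indicator_iff measurableSet_ball] at h ⊢
  have h2 := h.comp_sub_right y
  refine h2.congr (Eventually.of_forall (fun x => ?_))
  simp only [indicator, mem_ball, dist_eq_norm, sub_zero]

lemma gam_meas : Measurable (gam N) := by
  unfold gam
  by_cases h2 : N = 2
  · simp only [h2, if_true]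
    fun_prop
  · simp only [h2, if_false]
    fun_prop

lemma gam_mul_integrable (hN : 2 ≤ N) {K : Set (EuclideanSpace ℝ (Fin N))} (hK : IsCompact K)
    {h : EuclideanSpace ℝ (Fin N) → ℝ} (hc : Continuous h) (h0 : ∀ x ∉ K, h x = 0)
    (y : EuclideanSpace ℝ (Fin N)) : Integrable (fun x => gam N (‖x - y‖ ^ 2) * h x) := by
  obtain ⟨R, hR⟩ := hK.isBounded.subset_ball y
  have h1 := gam_integrableOn' hN y R
  obtain ⟨C, hC⟩ := hK.exists_bound_of_continuousOn hc.continuousOn
  have hb : ∀ x, ‖h x‖ ≤ max C 0 := by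
    intro x
    by_cases hx : x ∈ K
    · exact (hC x hx).trans (le_max_left _ _)
    · rw [h0 x hx, norm_zero]; exact le_max_right _ _
  have h2 : IntegrableOn (fun x => gam N (‖x - y‖ ^ 2) * h x) (ball y R) := by
    have := h1.bdd_mul (c := max C 0) hc.aestronglyMeasurable.restrict (Eventually.of_forall hb)
    refine this.congr (Eventually.of_forall (fun x => ?_))
    simp only
    ring
  rw [← integrable_indicator_iff measurableSet_ball] at h2
  refine h2.congr (Eventually.of_forall (fun x => ?_))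
  by_cases hx : x ∈ ball y R
  · simp only [indicator, hx, if_true]
  · simp only [indicator, hx, if_false]
    rw [h0 x (fun hK' => hx (hR hK')), mul_zero]

/-- the fundamental solution property, tested against functions with explicit derivatives -/
theorem green (hN : 2 ≤ N) {T : TF N} {K : Set (EuclideanSpace ℝ (Fin N))} (hK : IsCompact K)
    (hT : T.Van K) (y : EuclideanSpace ℝ (Fin N)) :
    ∫ x, gam N (‖x - y‖ ^ 2) * T.lap x = -(cK N * T.f y) := by
  have hN0 : 0 < N := by omega
  have : Nonempty (Fin N) := ⟨⟨0, by omega⟩⟩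
  have : Nontrivial (EuclideanSpace ℝ (Fin N)) := inferInstance
  set ε : ℕ → ℝ := fun n => 1 / ((n : ℝ) + 1) with hε
  have hε0 : ∀ n, 0 < ε n := fun n => by simp only [hε]; positivity
  have hε1 : ∀ n, ε n ≤ 1 := fun n => by
    simp only [hε]
    rw [div_le_one (by positivity)]
    linarith [(Nat.cast_nonneg n : (0:ℝ) ≤ n)]
  have hεt : Tendsto ε atTop (𝓝 0) := tendsto_one_div_add_atTop_nhds_zero_nat
  have hε2 : Tendsto (fun n => (ε n) ^ 2) atTop (𝓝 0) := by
    have := hεt.pow 2
    simpa using this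
  -- left side
  have hL : Tendsto (fun n => ∫ x, gam N (‖x - y‖ ^ 2 + (ε n) ^ 2) * T.lap x) atTop
      (𝓝 (∫ x, gam N (‖x - y‖ ^ 2) * T.lap x)) := by
    apply tendsto_integral_of_dominated_convergence
      (fun x => |gam N (‖x - y‖ ^ 2) * T.lap x| + |gam N (‖x - y‖ ^ 2 + 1) * T.lap x|)
    · intro n
      exact ((reg_cont (by have := hε0 n; positivity) y).mul T.lap_cont).aestronglyMeasurable
    · exact (gam_mul_integrable hN hK T.lap_cont hT.lap0 y).abs.add
        (int_mul hK (reg_cont one_pos y) T.lap_cont hT.lap0).abs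
    · intro n
      have hae : ∀ᵐ x : EuclideanSpace ℝ (Fin N), x ≠ y := by
        have : (volume : Measure (EuclideanSpace ℝ (Fin N))) {y} = 0 := measure_singleton y
        rw [ae_iff]
        simp
      filter_upwards [hae] with x hx
      have hpos : 0 < ‖x - y‖ ^ 2 := by
        have : 0 < ‖x - y‖ := norm_pos_iff.2 (sub_ne_zero.2 hx)
        positivity
      have he : (ε n) ^ 2 ≤ 1 := pow_le_one₀ (hε0 n).le (hε1 n)
      have he0 : 0 ≤ (ε n) ^ 2 := by positivity
      have a1 := gam_anti hN hpos (show ‖x - y‖ ^ 2 ≤ ‖x - y‖ ^ 2 + (ε n) ^ 2 by linarith)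
      have a2 := gam_anti hN (show 0 < ‖x - y‖ ^ 2 + (ε n) ^ 2 by linarith)
        (show ‖x - y‖ ^ 2 + (ε n) ^ 2 ≤ ‖x - y‖ ^ 2 + 1 by linarith)
      rw [Real.norm_eq_abs, abs_mul, abs_mul, abs_mul, ← add_mul]
      gcongr
      rw [abs_le]
      constructor
      · have := neg_abs_le (gam N (‖x - y‖ ^ 2 + 1))
        have := abs_nonneg (gam N (‖x - y‖ ^ 2))
        linarith
      · have := le_abs_self (gam N (‖x - y‖ ^ 2))
        have := abs_nonneg (gam N (‖x - y‖ ^ 2 + 1))
        linarith
    · have hae : ∀ᵐ x : EuclideanSpace ℝ (Fin N), x ≠ y := by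
        have : (volume : Measure (EuclideanSpace ℝ (Fin N))) {y} = 0 := measure_singleton y
        rw [ae_iff]
        simp
      filter_upwards [hae] with x hx
      have hpos : 0 < ‖x - y‖ ^ 2 := by
        have : 0 < ‖x - y‖ := norm_pos_iff.2 (sub_ne_zero.2 hx)
        positivity
      apply Tendsto.mul_const
      have h1 : ContinuousAt (gam N) (‖x - y‖ ^ 2) := (gam_hasDeriv hpos).continuousAt
      have h2 : Tendsto (fun n => ‖x - y‖ ^ 2 + (ε n) ^ 2) atTop (𝓝 (‖x - y‖ ^ 2)) := by
        simpa using hε2.const_add (‖x - y‖ ^ 2)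
      exact h1.tendsto.comp h2
  -- right side
  have hR : Tendsto (fun n => ∫ z, 2 * kap N * N * ((‖z‖ ^ 2 + 1) ^ (-((N : ℝ) / 2) - 1) *
      T.f (y + ε n • z))) atTop (𝓝 (cK N * T.f y)) := by
    have e : cK N * T.f y = ∫ z : EuclideanSpace ℝ (Fin N), 2 * kap N * N *
        ((‖z‖ ^ 2 + 1) ^ (-((N : ℝ) / 2) - 1) * T.f y) := by
      rw [integral_const_mul, integral_mul_const, cK]
      ring
    rw [e]
    obtain ⟨C, hC⟩ := hK.exists_bound_of_continuousOn T.cf.continuousOn
    have hb : ∀ x, ‖T.f x‖ ≤ max C 0 := by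
      intro x
      by_cases hx : x ∈ K
      · exact (hC x hx).trans (le_max_left _ _)
      · rw [hT.f0 x hx, norm_zero]; exact le_max_right _ _
    have hk := kap_pos hN
    apply tendsto_integral_of_dominated_convergence
      (fun z => 2 * kap N * N * ((‖z‖ ^ 2 + 1) ^ (-((N : ℝ) / 2) - 1) * max C 0))
    · intro n
      have c1 := pow_cont (N := N) one_pos 0 (-((N : ℝ) / 2) - 1)
      simp only [sub_zero] at c1
      have c2 : Continuous (fun z => T.f (y + ε n • z)) := T.cf.comp (by fun_prop)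
      exact (continuous_const.mul (c1.mul c2)).aestronglyMeasurable
    · exact (jap_integrable.mul_const _).const_mul _
    · intro n
      refine Eventually.of_forall (fun z => ?_)
      have p1 : (0:ℝ) ≤ 2 * kap N * N := by positivity
      have p2 : (0:ℝ) ≤ (‖z‖ ^ 2 + 1) ^ (-((N : ℝ) / 2) - 1) := by positivity
      rw [norm_mul (2 * kap N * N), norm_mul ((‖z‖ ^ 2 + 1) ^ (-((N : ℝ) / 2) - 1)),
        Real.norm_of_nonneg p1, Real.norm_of_nonneg p2]
      gcongr
      exact hb _
    · refine Eventually.of_forall (fun z => ?_)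
      apply Tendsto.const_mul
      apply Tendsto.const_mul
      have h1 : Tendsto (fun n => y + ε n • z) atTop (𝓝 y) := by
        have := (hεt.smul_const z).const_add y
        simpa using this
      exact (T.cf.tendsto y).comp h1
  have heq : ∀ n, ∫ x, gam N (‖x - y‖ ^ 2 + (ε n) ^ 2) * T.lap x =
      -∫ z, 2 * kap N * N * ((‖z‖ ^ 2 + 1) ^ (-((N : ℝ) / 2) - 1) * T.f (y + ε n • z)) := by
    intro n
    have := hε0 n
    rw [green_reg hK hT (by positivity) y, rhs_rescale (hε0 n) y]
  simp_rw [heq] at hL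
  exact tendsto_nhds_unique hL hR.neg

end Pool.Agent.Work.MP_19b229_an
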