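import Pool.Agent.Work.MP_19b229_an.Defs

set_option autoImplicit false

open MeasureTheory Filter Topology Set Metric
open scoped ENNReal

namespace Pool.Agent.Work.MP_19b229_an

/-- the constant in dimension at least three -/
noncomputable def cN (N : ℕ) : ℝ :=
  (N * (N - 2) * (volume (ball (0 : EuclideanSpace ℝ (Fin N)) 1)).toReal)⁻¹

/-- the fundamental solution as a function of the squared norm -/
noncomputable def gam (N : ℕ) (s : ℝ) : ℝ :=
  if N = 2 then -((4 * Real.pi)⁻¹ * Real.log s) else cN N * s ^ ((2 - (N : ℝ)) / 2)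

/-- the constant in the derivative -/
noncomputable def kap (N : ℕ) : ℝ := if N = 2 then (4 * Real.pi)⁻¹ else cN N * ((N - 2) / 2)

lemma Gam_eq (N : ℕ) (x : EuclideanSpace ℝ (Fin N)) : Gam N x = gam N (‖x‖ ^ 2) := by
  unfold Gam gam
  by_cases hN : N = 2
  · rw [if_pos hN, if_pos hN, Real.log_pow]
    push_cast
    have : (Real.pi : ℝ) ≠ 0 := Real.pi_ne_zero
    field_simp
    ring
  · rw [if_neg hN, if_neg hN, cN]
    congr 1
    rw [← Real.rpow_natCast, ← Real.rpow_mul (norm_nonneg x)]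
    congr 1
    push_cast
    ring

lemma ball_pos (N : ℕ) : 0 < (volume (ball (0 : EuclideanSpace ℝ (Fin N)) 1)).toReal :=
  ENNReal.toReal_pos (measure_ball_pos _ _ one_pos).ne' measure_ball_lt_top.ne

lemma cN_pos {N : ℕ} (hN : 3 ≤ N) : 0 < cN N := by
  have h1 := ball_pos N
  have h2 : (3:ℝ) ≤ N := by exact_mod_cast hN
  unfold cN
  apply inv_pos.2
  apply mul_pos _ h1
  nlinarith

lemma kap_pos {N : ℕ} (hN : 2 ≤ N) : 0 < kap N := by
  unfold kap
  by_cases h2 : N = 2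
  · rw [if_pos h2]; positivity
  · rw [if_neg h2]
    have h3 : 3 ≤ N := by omega
    have h4 : (3:ℝ) ≤ N := by exact_mod_cast h3
    have := cN_pos h3
    apply mul_pos this
    linarith

lemma gam_hasDeriv {N : ℕ} {s : ℝ} (hs : 0 < s) :
    HasDerivAt (gam N) (-(kap N * s ^ (-((N : ℝ) / 2)))) s := by
  unfold gam kap
  by_cases h2 : N = 2
  · simp only [h2, if_true]
    have h := ((Real.hasDerivAt_log hs.ne').const_mul (4 * Real.pi)⁻¹).neg
    refine h.congr_deriv ?_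
    push_cast
    rw [show (-(2 / 2 : ℝ)) = -1 by norm_num, Real.rpow_neg_one]
  · simp only [h2, if_false]
    have h := (Real.hasDerivAt_rpow_const (p := (2 - (N : ℝ)) / 2) (Or.inl hs.ne')).const_mul (cN N)
    refine h.congr_deriv ?_
    rw [show (2 - (N : ℝ)) / 2 - 1 = -((N : ℝ) / 2) by ring]
    ring

lemma gam_anti {N : ℕ} (hN : 2 ≤ N) {s t : ℝ} (hs : 0 < s) (hst : s ≤ t) : gam N t ≤ gam N s := by
  have hanti : AntitoneOn (gam N) (Ioi 0) := by
    apply antitoneOn_of_deriv_nonpos (convex_Ioi 0)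
    · intro x hx
      exact (gam_hasDeriv hx).continuousAt.continuousWithinAt
    · intro x hx
      rw [interior_Ioi] at hx
      exact (gam_hasDeriv hx).differentiableAt.differentiableWithinAt
    · intro x hx
      rw [interior_Ioi] at hx
      rw [(gam_hasDeriv hx).deriv]
      have h1 := kap_pos hN
      have h2 : 0 < x ^ (-((N : ℝ) / 2)) := Real.rpow_pos_of_pos hx _
      have := mul_pos h1 h2
      linarith
  exact hanti hs (lt_of_lt_of_le hs hst) hst

/-- the basis vectors -/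
noncomputable def ee {N : ℕ} (i : Fin N) : EuclideanSpace ℝ (Fin N) := EuclideanSpace.single i 1

lemma inner_ee {N : ℕ} (i : Fin N) (x : EuclideanSpace ℝ (Fin N)) : inner ℝ x (ee i) = x i := by
  unfold ee
  rw [EuclideanSpace.inner_single_right]
  simp

lemma ee_norm {N : ℕ} (i : Fin N) : ‖(ee i : EuclideanSpace ℝ (Fin N))‖ = 1 := by
  unfold ee
  simp

lemma normsq_hasLineDeriv {N : ℕ} (i : Fin N) (x y : EuclideanSpace ℝ (Fin N)) (δ : ℝ) :
    HasLineDerivAt ℝ (fun x => ‖x - y‖ ^ 2 + δ) (2 * (x - y) i) x (ee i) := by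
  unfold HasLineDerivAt
  have h1 : ∀ t : ℝ, ‖x + t • ee i - y‖ ^ 2 + δ = ‖x - y‖ ^ 2 + 2 * t * (x - y) i + t ^ 2 + δ := by
    intro t
    have e : x + t • ee i - y = (x - y) + t • ee i := by abel
    rw [e, norm_add_sq_real, inner_smul_right, inner_ee, norm_smul, ee_norm, mul_one,
      Real.norm_eq_abs, sq_abs]
    ring
  simp_rw [h1]
  have h2 : HasDerivAt (fun t : ℝ => ‖x - y‖ ^ 2 + 2 * t * (x - y) i + t ^ 2 + δ)
      (0 + 2 * 1 * (x - y) i + 2 * (0:ℝ) ^ (2 - 1) * 1 + 0) 0 := by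
    apply HasDerivAt.add
    · apply HasDerivAt.add
      · apply HasDerivAt.add
        · exact hasDerivAt_const _ _
        · exact ((hasDerivAt_id (0:ℝ)).const_mul 2).mul_const _
      · exact (hasDerivAt_id (0:ℝ)).pow 2
    · exact hasDerivAt_const _ _
  refine h2.congr_deriv ?_
  ring

lemma coord_hasLineDeriv {N : ℕ} (i : Fin N) (x y : EuclideanSpace ℝ (Fin N)) :
    HasLineDerivAt ℝ (fun x => (x - y) i) 1 x (ee i) := by
  unfold HasLineDerivAt
  have h1 : ∀ t : ℝ, (x + t • ee i - y) i = (x - y) i + t := by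
    intro t
    simp [ee]
    ring
  simp_rw [h1]
  exact (hasDerivAt_id (0:ℝ)).const_add _

section reg

variable {N : ℕ} {δ : ℝ} (hδ : 0 < δ)
include hδ

lemma reg_pos (x y : EuclideanSpace ℝ (Fin N)) : 0 < ‖x - y‖ ^ 2 + δ := by positivity

/-- first derivatives of the regularised kernel -/
lemma reg_d1 (i : Fin N) (x y : EuclideanSpace ℝ (Fin N)) :
    HasLineDerivAt ℝ (fun x => gam N (‖x - y‖ ^ 2 + δ))
      (-(kap N * (‖x - y‖ ^ 2 + δ) ^ (-((N : ℝ) / 2))) * (2 * (x - y) i)) x (ee i) := by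
  have h1 := normsq_hasLineDeriv i x y δ
  unfold HasLineDerivAt at h1 ⊢
  have h2 := gam_hasDeriv (N := N) (reg_pos hδ x y)
  have h3 : HasDerivAt (gam N) (-(kap N * (‖x - y‖ ^ 2 + δ) ^ (-((N : ℝ) / 2))))
      (‖x + (0:ℝ) • ee i - y‖ ^ 2 + δ) := by
    rw [zero_smul, add_zero]; exact h2
  exact h3.comp 0 h1

/-- second derivatives of the regularised kernel -/
lemma reg_d2 (i : Fin N) (x y : EuclideanSpace ℝ (Fin N)) :
    HasLineDerivAt ℝ (fun x => -(kap N * (‖x - y‖ ^ 2 + δ) ^ (-((N : ℝ) / 2))) * (2 * (x - y) i))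
      (kap N * (N / 2) * (‖x - y‖ ^ 2 + δ) ^ (-((N : ℝ) / 2) - 1) * (2 * (x - y) i) ^ 2
        - 2 * kap N * (‖x - y‖ ^ 2 + δ) ^ (-((N : ℝ) / 2))) x (ee i) := by
  have h1 := normsq_hasLineDeriv i x y δ
  have h4 := coord_hasLineDeriv i x y
  unfold HasLineDerivAt at h1 h4 ⊢
  have hpos := reg_pos hδ x y
  have h2 : HasDerivAt (fun s : ℝ => s ^ (-((N : ℝ) / 2)))
      (-((N : ℝ) / 2) * (‖x - y‖ ^ 2 + δ) ^ (-((N : ℝ) / 2) - 1))
      (‖x + (0:ℝ) • ee i - y‖ ^ 2 + δ) := by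
    rw [zero_smul, add_zero]
    exact Real.hasDerivAt_rpow_const (Or.inl hpos.ne')
  have h3 := ((h2.comp 0 h1).const_mul (kap N)).neg.mul (h4.const_mul 2)
  refine h3.congr_deriv ?_
  simp only [Function.comp_apply, Pi.neg_apply, zero_smul, add_zero]
  ring

lemma reg_sum (x y : EuclideanSpace ℝ (Fin N)) :
    ∑ i : Fin N, (kap N * (N / 2) * (‖x - y‖ ^ 2 + δ) ^ (-((N : ℝ) / 2) - 1) * (2 * (x - y) i) ^ 2
        - 2 * kap N * (‖x - y‖ ^ 2 + δ) ^ (-((N : ℝ) / 2)))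
      = -(2 * kap N * N * δ * (‖x - y‖ ^ 2 + δ) ^ (-((N : ℝ) / 2) - 1)) := by
  have hpos := reg_pos hδ x y
  have h1 : ∑ i : Fin N, ((x - y) i) ^ 2 = ‖x - y‖ ^ 2 := by
    rw [EuclideanSpace.norm_sq_eq]
    apply Finset.sum_congr rfl
    intro i _
    rw [Real.norm_eq_abs, sq_abs]
  have h2 : (‖x - y‖ ^ 2 + δ) ^ (-((N : ℝ) / 2)) =
      (‖x - y‖ ^ 2 + δ) ^ (-((N : ℝ) / 2) - 1) * (‖x - y‖ ^ 2 + δ) := by
    rw [Real.rpow_sub_one hpos.ne']
    field_simp
  rw [Finset.sum_sub_distrib, ← Finset.mul_sum, Finset.sum_const, Finset.card_univ,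
    Fintype.card_fin, nsmul_eq_mul, h2]
  have h3 : ∑ i : Fin N, (2 * (x - y) i) ^ 2 = 4 * ‖x - y‖ ^ 2 := by
    rw [← h1, Finset.mul_sum]
    apply Finset.sum_congr rfl
    intro i _
    ring
  rw [h3]
  ring

end reg

end Pool.Agent.Work.MP_19b229_an
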