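import Pool.Agent.Work.MP_19b229_an.Final

set_option autoImplicit false

open MeasureTheory Filter Topology Set Metric
open scoped ENNReal NNReal

namespace Pool.Agent.Work.MP_19b229_an

theorem main {N : ℕ} (hN : 2 ≤ N) {Ω : Set (EuclideanSpace ℝ (Fin N))} (hΩo : IsOpen Ω)
    (hΩb : Bornology.IsBounded Ω) {β : ℝ} (hβ : 0 < β)
    {μ : SignedMeasure (EuclideanSpace ℝ (Fin N))} (hμ : CarriedBy μ Ω)
    (hpot : HolderPotential Ω β μ) (κ : ℝ≥0∞) (hκ : κ ≠ 0) :
    ∃ ν : ℕ → SignedMeasure (EuclideanSpace ℝ (Fin N)), (∀ n, CarriedBy (ν n) Ω) ∧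
      (∀ n A, MeasurableSet A →
        (ν n).totalVariation A ≤ n * (κ * Measure.hausdorffMeasure ((N : ℝ) - 2 + β) A)) ∧
      Tendsto (fun n => (ν n - μ).totalVariation univ) atTop (𝓝 0) := by
  have hac0 := variation_ac hN hΩo hΩb hμ hβ hpot
  have hac : μ.totalVariation ≪ κ • (Measure.hausdorffMeasure ((N : ℝ) - 2 + β) :
      Measure (EuclideanSpace ℝ (Fin N))) := by
    intro A hA
    rw [Measure.smul_apply, smul_eq_mul, mul_eq_zero] at hA
    exact hac0 (hA.resolve_left hκ)
  have hfin : IsFiniteMeasure μ.totalVariation := by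
    rw [totalVariation_eq]; infer_instance
  obtain ⟨A, hAm, hA1, hA2⟩ := exists_good_sets μ.totalVariation _ hac
  have hvar : ∀ (τ : SignedMeasure (EuclideanSpace ℝ (Fin N))) {S : Set (EuclideanSpace ℝ (Fin N))},
      MeasurableSet S → SignedMeasure.totalVariation (τ.restrict S) =
        τ.totalVariation.restrict S := by
    intro τ S hS
    rw [SignedMeasure.totalVariation_eq_variation, SignedMeasure.totalVariation_eq_variation,
      VectorMeasure.variation_restrict hS]
  refine ⟨fun n => μ.restrict (A n), ?_, ?_, ?_⟩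
  · intro n
    unfold CarriedBy
    rw [hvar μ (hAm n), Measure.restrict_apply hΩo.measurableSet.compl]
    exact measure_mono_null inter_subset_left hμ
  · intro n B hB
    rw [hvar μ (hAm n), Measure.restrict_apply hB]
    have := hA1 n B hB
    rwa [Measure.smul_apply, smul_eq_mul] at this
  · refine hA2.congr (fun n => ?_)
    have e : (μ.restrict (A n) - μ : SignedMeasure _) = -(μ.restrict (A n)ᶜ) := by
      have h1 := VectorMeasure.restrict_add_restrict_compl (v := μ) (hAm n)
      nth_rewrite 2 [← h1]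
      abel
    rw [e, SignedMeasure.totalVariation_neg, hvar μ (hAm n).compl, Measure.restrict_apply_univ]

end Pool.Agent.Work.MP_19b229_an
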