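import Pool.Agent.Work.MP_19b229_an.Green2

set_option autoImplicit false

open MeasureTheory Filter Topology Set Metric
open scoped ENNReal

namespace Pool.Agent.Work.MP_19b229_an

variable {N : ℕ}

lemma prod_integrable (hN : 2 ≤ N) {m : Measure (EuclideanSpace ℝ (Fin N))} [IsFiniteMeasure m]
    {Ω : Set (EuclideanSpace ℝ (Fin N))} (hΩb : Bornology.IsBounded Ω) (hm : m Ωᶜ = 0)
    {K : Set (EuclideanSpace ℝ (Fin N))} (hK : IsCompact K)
    {h : EuclideanSpace ℝ (Fin N) → ℝ} (hc : Continuous h) (h0 : ∀ x ∉ K, h x = 0) :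
    Integrable (fun p : EuclideanSpace ℝ (Fin N) × EuclideanSpace ℝ (Fin N) =>
      gam N (‖p.1 - p.2‖ ^ 2) * h p.1) (volume.prod m) := by
  have hmeas : Measurable (fun p : EuclideanSpace ℝ (Fin N) × EuclideanSpace ℝ (Fin N) =>
      gam N (‖p.1 - p.2‖ ^ 2) * h p.1) := by
    apply Measurable.mul
    · exact gam_meas.comp (by fun_prop)
    · exact hc.measurable.comp measurable_fst
  rw [integrable_prod_iff' hmeas.aestronglyMeasurable]
  refine ⟨Eventually.of_forall (fun y => gam_mul_integrable hN hK hc h0 y), ?_⟩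
  obtain ⟨C, hC⟩ := hK.exists_bound_of_continuousOn hc.continuousOn
  have hb : ∀ x, ‖h x‖ ≤ max C 0 := by
    intro x
    by_cases hx : x ∈ K
    · exact (hC x hx).trans (le_max_left _ _)
    · rw [h0 x hx, norm_zero]; exact le_max_right _ _
  obtain ⟨R1, hR1⟩ := hK.isBounded.subset_ball 0
  obtain ⟨R2, hR2⟩ := hΩb.subset_ball 0
  refine Integrable.of_bound ?_ (max C 0 *
    ∫ x in ball (0 : EuclideanSpace ℝ (Fin N)) (R1 + R2), ‖gam N (‖x‖ ^ 2)‖) ?_
  · exact (hmeas.norm.stronglyMeasurable.integral_prod_left').aestronglyMeasurable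
  · have hae : ∀ᵐ y ∂m, y ∈ Ω := by
      rw [ae_iff]
      exact hm
    filter_upwards [hae] with y hy
    rw [Real.norm_of_nonneg (integral_nonneg (fun _ => norm_nonneg _))]
    have h1 := gam_integrableOn' hN y (R1 + R2)
    calc ∫ x, ‖gam N (‖x - y‖ ^ 2) * h x‖
        ≤ ∫ x, (ball y (R1 + R2)).indicator (fun x => max C 0 * ‖gam N (‖x - y‖ ^ 2)‖) x := by
          apply integral_mono (gam_mul_integrable hN hK hc h0 y).norm
          · rw [integrable_indicator_iff measurableSet_ball]
            exact h1.norm.const_mul _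
          · intro x
            by_cases hx : x ∈ ball y (R1 + R2)
            · simp only [indicator, hx, if_true]
              rw [norm_mul, mul_comm]
              gcongr
              exact hb x
            · simp only [indicator, hx, if_false]
              have hxK : x ∉ K := by
                intro hxK
                apply hx
                have a1 := hR1 hxK
                have a2 := hR2 hy
                rw [mem_ball, dist_zero_right] at a1 a2
                rw [mem_ball, dist_eq_norm]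
                calc ‖x - y‖ ≤ ‖x‖ + ‖y‖ := norm_sub_le _ _
                  _ < R1 + R2 := by linarith
              rw [h0 x hxK, mul_zero, norm_zero]
      _ = max C 0 * ∫ x in ball y (R1 + R2), ‖gam N (‖x - y‖ ^ 2)‖ := by
          rw [integral_indicator measurableSet_ball, integral_const_mul]
      _ = max C 0 * ∫ x in ball (0 : EuclideanSpace ℝ (Fin N)) (R1 + R2),
          ‖gam N (‖x‖ ^ 2)‖ := by
          congr 1
          rw [← integral_indicator measurableSet_ball, ← integral_indicator measurableSet_ball]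
          have e := integral_sub_right_eq_self
            (μ := (volume : Measure (EuclideanSpace ℝ (Fin N))))
            (fun x => (ball (0 : EuclideanSpace ℝ (Fin N)) (R1 + R2)).indicator
              (fun x => ‖gam N (‖x‖ ^ 2)‖) x) y
          rw [← e]
          apply integral_congr_ae
          refine Eventually.of_forall (fun x => ?_)
          simp only [indicator, mem_ball, dist_eq_norm, sub_zero]

/-- Fubini for potentials -/
lemma pot_fubini (hN : 2 ≤ N) {m : Measure (EuclideanSpace ℝ (Fin N))} [IsFiniteMeasure m]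
    {Ω : Set (EuclideanSpace ℝ (Fin N))} (hΩb : Bornology.IsBounded Ω) (hm : m Ωᶜ = 0)
    {K : Set (EuclideanSpace ℝ (Fin N))} (hK : IsCompact K)
    {h : EuclideanSpace ℝ (Fin N) → ℝ} (hc : Continuous h) (h0 : ∀ x ∉ K, h x = 0) :
    Integrable (fun x => (∫ y, Gam N (x - y) ∂m) * h x) ∧
    ∫ x, (∫ y, Gam N (x - y) ∂m) * h x = ∫ y, (∫ x, gam N (‖x - y‖ ^ 2) * h x) ∂m := by
  have hp := prod_integrable hN hΩb hm hK hc h0
  have e : ∀ x, (∫ y, Gam N (x - y) ∂m) * h x = ∫ y, gam N (‖x - y‖ ^ 2) * h x ∂m := by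
    intro x
    rw [integral_mul_const]
    simp_rw [Gam_eq]
  constructor
  · simp_rw [e]
    exact hp.integral_prod_left
  · simp_rw [e]
    rw [integral_integral_swap hp]

/-- integral against a signed measure -/
noncomputable def sint (μ : SignedMeasure (EuclideanSpace ℝ (Fin N)))
    (φ : EuclideanSpace ℝ (Fin N) → ℝ) : ℝ :=
  (∫ y, φ y ∂μ.toJordanDecomposition.posPart) - ∫ y, φ y ∂μ.toJordanDecomposition.negPart

lemma carried_parts {μ : SignedMeasure (EuclideanSpace ℝ (Fin N))}
    {Ω : Set (EuclideanSpace ℝ (Fin N))} (hμ : CarriedBy μ Ω) :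
    μ.toJordanDecomposition.posPart Ωᶜ = 0 ∧ μ.toJordanDecomposition.negPart Ωᶜ = 0 := by
  unfold CarriedBy SignedMeasure.totalVariation at hμ
  rw [Measure.add_apply] at hμ
  exact ⟨(add_eq_zero.1 hμ).1, (add_eq_zero.1 hμ).2⟩

lemma pot_test (hN : 2 ≤ N) {μ : SignedMeasure (EuclideanSpace ℝ (Fin N))}
    {Ω : Set (EuclideanSpace ℝ (Fin N))} (hΩb : Bornology.IsBounded Ω) (hμ : CarriedBy μ Ω)
    {T : TF N} {K : Set (EuclideanSpace ℝ (Fin N))} (hK : IsCompact K) (hT : T.Van K) :
    Integrable (fun x => pot μ x * T.lap x) ∧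
    ∫ x, pot μ x * T.lap x = -(cK N * sint μ T.f) := by
  obtain ⟨h1, h2⟩ := carried_parts hμ
  obtain ⟨i1, e1⟩ := pot_fubini hN hΩb h1 hK T.lap_cont hT.lap0
  obtain ⟨i2, e2⟩ := pot_fubini hN hΩb h2 hK T.lap_cont hT.lap0
  have e : ∀ x, pot μ x * T.lap x = (∫ y, Gam N (x - y) ∂μ.toJordanDecomposition.posPart) * T.lap x
      - (∫ y, Gam N (x - y) ∂μ.toJordanDecomposition.negPart) * T.lap x := by
    intro x
    rw [pot, sub_mul]
  constructor
  · simp_rw [e]
    exact i1.sub i2
  · simp_rw [e]
    rw [integral_sub i1 i2, e1, e2]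
    simp_rw [green hN hK hT]
    rw [integral_neg, integral_neg, integral_const_mul, integral_const_mul, sint]
    ring

/-- main estimate on one test function -/
lemma test_bound (hN : 2 ≤ N) {μ : SignedMeasure (EuclideanSpace ℝ (Fin N))}
    {Ω : Set (EuclideanSpace ℝ (Fin N))} (hΩb : Bornology.IsBounded Ω) (hμ : CarriedBy μ Ω)
    {v : EuclideanSpace ℝ (Fin N) → ℝ} {C β : ℝ} (hC0 : 0 ≤ C) (hβ : 0 < β)
    (hv : ∀ x ∈ Ω, ∀ y ∈ Ω, |v x - v y| ≤ C * ‖x - y‖ ^ β)
    (hpv : ∀ᵐ x ∂(volume.restrict Ω), pot μ x = v x)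
    {T : TF N} {a : EuclideanSpace ℝ (Fin N)} {ρ B : ℝ} (hρ : 0 < ρ)
    (hT : T.Van (closedBall a ρ)) (hKΩ : closedBall a ρ ⊆ Ω) (hB : ∀ x, |T.lap x| ≤ B) :
    |sint μ T.f| ≤ (cK N)⁻¹ * (C * ρ ^ β * B * (volume (closedBall a ρ)).toReal) := by
  have hK : IsCompact (closedBall a ρ) := isCompact_closedBall a ρ
  obtain ⟨i1, e1⟩ := pot_test hN hΩb hμ hK hT
  have hcK := cK_pos hN
  have haΩ : a ∈ Ω := hKΩ (mem_closedBall_self hρ.le)
  have hB0 : 0 ≤ B := (abs_nonneg _).trans (hB a)
  have i2 : Integrable (fun x => v a * T.lap x) :=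
    int_mul hK continuous_const T.lap_cont hT.lap0
  have e2 : ∫ x, (pot μ x * T.lap x - v a * T.lap x) = -(cK N * sint μ T.f) := by
    rw [integral_sub i1 i2, e1, integral_const_mul, lap_integral_zero hK hT]
    ring
  have hpv' : ∀ᵐ x : EuclideanSpace ℝ (Fin N), x ∈ closedBall a ρ → pot μ x = v x := by
    have h1 : ∀ᵐ x ∂(volume.restrict (closedBall a ρ)), pot μ x = v x :=
      ae_mono (Measure.restrict_mono hKΩ le_rfl) hpv
    exact (ae_restrict_iff' measurableSet_closedBall).1 h1
  have h3 : ‖∫ x, (pot μ x * T.lap x - v a * T.lap x)‖ ≤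
      ∫ x, (closedBall a ρ).indicator (fun _ => C * ρ ^ β * B) x := by
    apply norm_integral_le_of_norm_le
    · rw [integrable_indicator_iff measurableSet_closedBall]
      exact integrableOn_const (measure_closedBall_lt_top.ne)
    · filter_upwards [hpv'] with x hx
      by_cases hxK : x ∈ closedBall a ρ
      · simp only [indicator, hxK, if_true]
        rw [hx hxK, ← sub_mul, norm_mul, Real.norm_eq_abs, Real.norm_eq_abs]
        have h4 : |v x - v a| ≤ C * ρ ^ β := by
          refine (hv x (hKΩ hxK) a haΩ).trans ?_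
          gcongr
          rw [← dist_eq_norm]
          exact hxK
        gcongr
        exact hB x
      · simp only [indicator, hxK, if_false]
        rw [hT.lap0 x hxK]
        simp
  rw [e2, integral_indicator measurableSet_closedBall, setIntegral_const, norm_neg, norm_mul,
    Real.norm_of_nonneg hcK.le, Real.norm_eq_abs, smul_eq_mul] at h3
  rw [← div_eq_inv_mul, le_div_iff₀ hcK]
  calc |sint μ T.f| * cK N = cK N * |sint μ T.f| := mul_comm _ _
    _ ≤ _ := h3
    _ = _ := by
      rw [mul_comm]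
      rfl

end Pool.Agent.Work.MP_19b229_an
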