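import Pool.Agent.Work.MP_19b229_an.Bump
import Pool.Agent.Work.MP_19b229_an.PotTest

set_option autoImplicit false

open MeasureTheory Filter Topology Set Metric
open scoped ENNReal

namespace Pool.Agent.Work.MP_19b229_an

variable {N : ℕ}

/-- the constant function one -/
noncomputable def TF.one (N : ℕ) : TF N where
  f _ := 1
  d1 _ _ := 0
  d2 _ _ := 0
  h1 _ _ := by unfold HasLineDerivAt; exact hasDerivAt_const _ _
  h2 _ _ := by unfold HasLineDerivAt; exact hasDerivAt_const _ _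
  cf := continuous_const
  c1 _ := continuous_const
  c2 _ := continuous_const

/-- one minus a test function -/
noncomputable def TF.compl (T : TF N) : TF N where
  f x := 1 - T.f x
  d1 i x := -T.d1 i x
  d2 i x := -T.d2 i x
  h1 i x := by
    have := T.h1 i x
    unfold HasLineDerivAt at this ⊢
    exact this.const_sub 1
  h2 i x := by
    have := T.h2 i x
    unfold HasLineDerivAt at this ⊢
    exact this.neg
  cf := continuous_const.sub T.cf
  c1 i := (T.c1 i).neg
  c2 i := (T.c2 i).neg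

/-- product -/
noncomputable def TF.mul (T S : TF N) : TF N where
  f x := T.f x * S.f x
  d1 i x := T.d1 i x * S.f x + T.f x * S.d1 i x
  d2 i x := T.d2 i x * S.f x + 2 * (T.d1 i x * S.d1 i x) + T.f x * S.d2 i x
  h1 i x := by
    have h1 := T.h1 i x
    have h2 := S.h1 i x
    unfold HasLineDerivAt at h1 h2 ⊢
    have := h1.mul h2
    simp only [zero_smul, add_zero] at this
    exact this
  h2 i x := by
    have h1 := T.h1 i x
    have h2 := S.h1 i x
    have h3 := T.h2 i x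
    have h4 := S.h2 i x
    unfold HasLineDerivAt at h1 h2 h3 h4 ⊢
    have := (h3.mul h2).add (h1.mul h4)
    simp only [zero_smul, add_zero] at this
    refine this.congr_deriv ?_
    ring
  cf := T.cf.mul S.cf
  c1 i := ((T.c1 i).mul S.cf).add (T.cf.mul (S.c1 i))
  c2 i := (((T.c2 i).mul S.cf).add (continuous_const.mul ((T.c1 i).mul (S.c1 i)))).add
    (T.cf.mul (S.c2 i))

lemma TF.Van.mul {T : TF N} {K : Set (EuclideanSpace ℝ (Fin N))} (h : T.Van K) (S : TF N) :
    (T.mul S).Van K := by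
  refine ⟨fun x hx => ?_, fun i x hx => ?_, fun i x hx => ?_⟩
  · change T.f x * S.f x = 0
    rw [h.f0 x hx, zero_mul]
  · change T.d1 i x * S.f x + T.f x * S.d1 i x = 0
    rw [h.f0 x hx, h.d10 i x hx]; ring
  · change T.d2 i x * S.f x + 2 * (T.d1 i x * S.d1 i x) + T.f x * S.d2 i x = 0
    rw [h.f0 x hx, h.d10 i x hx, h.d20 i x hx]; ring

lemma TF.Van.mono {T : TF N} {K K' : Set (EuclideanSpace ℝ (Fin N))} (h : T.Van K) (hK : K ⊆ K') :
    T.Van K' :=
  ⟨fun x hx => h.f0 x (fun h' => hx (hK h')), fun i x hx => h.d10 i x (fun h' => hx (hK h')),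
    fun i x hx => h.d20 i x (fun h' => hx (hK h'))⟩

/-- what remains after treating the cubes of the list -/
noncomputable def rem : List (ℕ × (Fin N → ℤ)) → TF N
  | [] => TF.one N
  | (c :: L) => (psi c).compl.mul (rem L)

/-- the total first order weight -/
noncomputable def AA (L : List (ℕ × (Fin N → ℤ))) (x : EuclideanSpace ℝ (Fin N)) : ℝ :=
  (L.map (fun c => (Rg c).indicator (fun _ => CB * 2 ^ c.1) x)).sum

/-- the total second order weight -/
noncomputable def BB (L : List (ℕ × (Fin N → ℤ))) (x : EuclideanSpace ℝ (Fin N)) : ℝ :=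
  (L.map (fun c => (Rg c).indicator (fun _ => CB * 4 ^ c.1) x)).sum

lemma ind_nonneg (c : ℕ × (Fin N → ℤ)) (b : ℝ) (hb : 0 ≤ b) (x : EuclideanSpace ℝ (Fin N)) :
    0 ≤ (Rg c).indicator (fun _ => CB * b ^ c.1) x := by
  apply indicator_nonneg
  intro _ _
  have := CB_one
  positivity

lemma AA_nonneg (L : List (ℕ × (Fin N → ℤ))) (x : EuclideanSpace ℝ (Fin N)) : 0 ≤ AA L x := by
  apply List.sum_nonneg
  intro a ha
  rw [List.mem_map] at ha
  obtain ⟨c, -, rfl⟩ := ha
  exact ind_nonneg c 2 (by norm_num) x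

lemma rem_bounds (L : List (ℕ × (Fin N → ℤ))) (x : EuclideanSpace ℝ (Fin N)) :
    0 ≤ (rem L).f x ∧ (rem L).f x ≤ 1 ∧ ∀ i, |(rem L).d1 i x| ≤ AA L x ∧
      |(rem L).d2 i x| ≤ BB L x + AA L x ^ 2 := by
  induction L with
  | nil =>
    refine ⟨zero_le_one, le_rfl, fun i => ⟨?_, ?_⟩⟩
    · change |(0:ℝ)| ≤ _
      simp [AA]
    · change |(0:ℝ)| ≤ _
      simp [AA, BB]
  | cons c L ih =>
    obtain ⟨h0, h1, h2⟩ := ih
    have p0 := psi_nonneg c x
    have p1 := psi_le_one c x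
    have ef : (rem (c :: L)).f x = (1 - (psi c).f x) * (rem L).f x := rfl
    have eA : AA (c :: L) x = (Rg c).indicator (fun _ => CB * 2 ^ c.1) x + AA L x := by
      simp [AA]
    have eB : BB (c :: L) x = (Rg c).indicator (fun _ => CB * 4 ^ c.1) x + BB L x := by
      simp [BB]
    set a := (Rg c).indicator (fun _ => CB * 2 ^ c.1) x with ha
    set b := (Rg c).indicator (fun _ => CB * 4 ^ c.1) x with hb
    have a0 : 0 ≤ a := ind_nonneg c 2 (by norm_num) x
    have b0 : 0 ≤ b := ind_nonneg c 4 (by norm_num) x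
    have A0 := AA_nonneg L x
    refine ⟨?_, ?_, fun i => ⟨?_, ?_⟩⟩
    · rw [ef]; exact mul_nonneg (by linarith) h0
    · rw [ef]
      calc (1 - (psi c).f x) * (rem L).f x ≤ 1 * 1 := by
            gcongr
            linarith
        _ = 1 := one_mul 1
    · have e1 : (rem (c :: L)).d1 i x = -(psi c).d1 i x * (rem L).f x
          + (1 - (psi c).f x) * (rem L).d1 i x := rfl
      rw [e1, eA]
      refine (abs_add_le _ _).trans ?_
      rw [abs_mul, abs_mul, abs_neg, abs_of_nonneg h0, abs_of_nonneg (show 0 ≤ 1 - (psi c).f x by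
        linarith)]
      have q1 := psi_d1_le c i x
      have q2 := (h2 i).1
      calc |(psi c).d1 i x| * (rem L).f x + (1 - (psi c).f x) * |(rem L).d1 i x|
          ≤ a * 1 + 1 * AA L x := by
            gcongr
            linarith
        _ = a + AA L x := by ring
    · have e1 : (rem (c :: L)).d2 i x = -(psi c).d2 i x * (rem L).f x
          + 2 * (-(psi c).d1 i x * (rem L).d1 i x) + (1 - (psi c).f x) * (rem L).d2 i x := rfl
      rw [e1, eA, eB]
      have q1 := psi_d1_le c i x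
      have q2 := (h2 i).1
      have q3 := psi_d2_le c i x
      have q4 := (h2 i).2
      have t1 : |-(psi c).d2 i x * (rem L).f x| ≤ b * 1 := by
        rw [abs_mul, abs_neg, abs_of_nonneg h0]
        gcongr
      have t2 : |2 * (-(psi c).d1 i x * (rem L).d1 i x)| ≤ 2 * (a * AA L x) := by
        rw [abs_mul, abs_mul, abs_neg, abs_two]
        gcongr
      have t3 : |(1 - (psi c).f x) * (rem L).d2 i x| ≤ 1 * (BB L x + AA L x ^ 2) := by
        rw [abs_mul, abs_of_nonneg (show 0 ≤ 1 - (psi c).f x by linarith)]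
        gcongr
        linarith
      refine (abs_add_le _ _).trans ?_
      have t4 := abs_add_le (-(psi c).d2 i x * (rem L).f x)
        (2 * (-(psi c).d1 i x * (rem L).d1 i x))
      nlinarith [sq_nonneg a]

/-- positions of the cubes of a scale whose region contains a point -/
noncomputable def PP (m : ℕ) (x : EuclideanSpace ℝ (Fin N)) : Finset (Fin N → ℤ) :=
  Fintype.piFinset (fun j => Finset.Icc (⌊(2:ℝ) ^ m * x j⌋ - 3) (⌊(2:ℝ) ^ m * x j⌋ + 2))

lemma PP_card (m : ℕ) (x : EuclideanSpace ℝ (Fin N)) : (PP m x).card = 6 ^ N := by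
  unfold PP
  rw [Fintype.card_piFinset]
  have : ∀ j : Fin N, (Finset.Icc (⌊(2:ℝ) ^ m * x j⌋ - 3) (⌊(2:ℝ) ^ m * x j⌋ + 2)).card = 6 := by
    intro j
    rw [Int.card_Icc]
    have : ⌊(2:ℝ) ^ m * x j⌋ + 2 + 1 - (⌊(2:ℝ) ^ m * x j⌋ - 3) = 6 := by ring
    rw [this]
    rfl
  simp [this]

lemma mem_PP {c : ℕ × (Fin N → ℤ)} {x : EuclideanSpace ℝ (Fin N)} (hx : x ∈ Rg c) :
    c.2 ∈ PP c.1 x := by
  unfold PP
  rw [Fintype.mem_piFinset]
  intro j
  have h := hx j
  rw [mem_Icc] at h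
  unfold tc at h
  rw [Finset.mem_Icc]
  constructor
  · have h1 : (c.2 j : ℝ) ≥ (2:ℝ) ^ c.1 * x j - 3 := by linarith [h.2]
    have h2 := Int.floor_le ((2:ℝ) ^ c.1 * x j)
    have h3 : ((⌊(2:ℝ) ^ c.1 * x j⌋ - 3 : ℤ) : ℝ) ≤ c.2 j := by push_cast; linarith
    exact_mod_cast h3
  · have h1 : (c.2 j : ℝ) ≤ (2:ℝ) ^ c.1 * x j + 2 := by linarith [h.1]
    have h2 := Int.lt_floor_add_one ((2:ℝ) ^ c.1 * x j)
    have h3 : (c.2 j : ℝ) < ((⌊(2:ℝ) ^ c.1 * x j⌋ + 2 + 1 : ℤ) : ℝ) := by push_cast; linarith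
    have h4 : c.2 j < ⌊(2:ℝ) ^ c.1 * x j⌋ + 2 + 1 := by exact_mod_cast h3
    omega

/-- counting estimate -/
lemma weight_le {L : List (ℕ × (Fin N → ℤ))} (hL : L.Nodup) {M : ℕ} (hM : ∀ c ∈ L, c.1 ≤ M)
    {b : ℝ} (hb : 2 ≤ b) (x : EuclideanSpace ℝ (Fin N)) :
    (L.map (fun c => (Rg c).indicator (fun _ => CB * b ^ c.1) x)).sum
      ≤ CB * 6 ^ N * (2 * b ^ M) := by
  classical
  have hCB := CB_one
  rw [← List.sum_toFinset _ hL]
  have h1 : ∑ c ∈ L.toFinset, (Rg c).indicator (fun _ => CB * b ^ c.1) x ≤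
      ∑ c ∈ (Finset.range (M + 1)).sigma (fun m => PP m x), CB * b ^ c.1 := by
    have h2 : ∑ c ∈ L.toFinset, (Rg c).indicator (fun _ => CB * b ^ c.1) x =
        ∑ c ∈ L.toFinset.filter (fun c => x ∈ Rg c), CB * b ^ c.1 := by
      rw [Finset.sum_filter]
      apply Finset.sum_congr rfl
      intro c _
      by_cases hx : x ∈ Rg c <;> simp [indicator, hx]
    rw [h2]
    have h3 : ∑ c ∈ L.toFinset.filter (fun c => x ∈ Rg c), CB * b ^ c.1 =
        ∑ c ∈ (L.toFinset.filter (fun c => x ∈ Rg c)).map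
          ⟨fun c => (⟨c.1, c.2⟩ : Σ _ : ℕ, (Fin N → ℤ)), fun c d h => by
            have h' := Sigma.mk.inj_iff.1 h
            exact Prod.ext h'.1 (eq_of_heq h'.2)⟩, CB * b ^ c.1 := by
      rw [Finset.sum_map]
      rfl
    rw [h3]
    apply Finset.sum_le_sum_of_subset_of_nonneg
    · intro c hc
      rw [Finset.mem_map] at hc
      obtain ⟨d, hd, rfl⟩ := hc
      rw [Finset.mem_filter, List.mem_toFinset] at hd
      rw [Finset.mem_sigma, Finset.mem_range]
      exact ⟨Nat.lt_succ_of_le (hM d hd.1), mem_PP hd.2⟩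
    · intro c _ _
      positivity
  refine h1.trans ?_
  rw [Finset.sum_sigma]
  have h4 : ∀ m ∈ Finset.range (M + 1), ∑ p ∈ PP m x, CB * b ^ (⟨m, p⟩ : Σ _ : ℕ, (Fin N → ℤ)).1
      = CB * 6 ^ N * b ^ m := by
    intro m _
    change ∑ _p ∈ PP m x, CB * b ^ m = CB * 6 ^ N * b ^ m
    rw [Finset.sum_const, PP_card, nsmul_eq_mul]
    push_cast
    ring
  rw [Finset.sum_congr rfl h4, ← Finset.mul_sum]
  gcongr
  clear h4 h1 hM hL hCB
  induction M with
  | zero => simp
  | succ M ih =>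
    rw [Finset.sum_range_succ]
    have : 2 * b ^ M ≤ b ^ (M + 1) := by
      rw [pow_succ]
      have : 0 ≤ b ^ M := by positivity
      nlinarith
    linarith

end Pool.Agent.Work.MP_19b229_an
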